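import Pool.Agent.Helper95.KU.FiveGlobal

set_option autoImplicit false

/-!
# Entanglement of the 2-torsion with an odd torsion point: the twist by the discriminant

Let `E` be an elliptic curve over `ℚ` whose quadratic twist by its own discriminant is isogenous
to a curve `E'` with a rational point of odd order `k ≥ 3`. Then, for almost all primes `p`, the
number `|E(𝔽_p)|` is even or divisible by `k`; hence the refined Koblitz conjecture holds for
`(E, t)` for all odd `t` not divisible by `k`, with `C_{E,t} = 0`.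
-/

namespace Pool.Agent.Helper95.KU.DiscTwist

open Pool.Agent.Helper28.Koblitz Filter

theorem finite_coprime (E E' : WeierstrassCurve ℤ) (hE' : E'.Δ ≠ 0)
    (hiso : {p : ℕ | p.Prime ∧ numPts E' p ≠ numPts (quadTwist E E.Δ) p}.Finite)
    (k : ℕ) (hk : 3 ≤ k) (P : (overQ E').toAffine.Point) (hP : addOrderOf P = k) :
    {p : ℕ | p.Prime ∧ ¬ (((p : ℕ) : ℤ) ∣ E.Δ) ∧ Odd (numPts E p) ∧ ¬ k ∣ numPts E p}.Finite := by
  have h1 := eventually_dvd_numPts E' hE' P k hk hP
  rw [Filter.eventually_cofinite] at h1
  refine ((h1.union hiso).union (Set.finite_Iic 3)).subset ?_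
  rintro p ⟨hp, hgood, hodd, hkp⟩
  by_contra hcon
  rw [Set.mem_union, Set.mem_union, not_or, not_or] at hcon
  obtain ⟨⟨hc1, hc2⟩, hc3⟩ := hcon
  rw [Set.mem_Iic, not_le] at hc3
  have hk' : k ∣ numPts E' p := by
    by_contra h
    apply hc1
    intro h'
    exact h (h' hp)
  have heq : numPts E' p = numPts (quadTwist E E.Δ) p := by
    by_contra h
    exact hc2 ⟨hp, h⟩
  have : Fact p.Prime := ⟨hp⟩
  have hΔ : (E.Δ : ZMod p) ≠ 0 := by
    rw [Ne, ZMod.intCast_zmod_eq_zero_iff_dvd]; exact hgood
  have hsq := isSquare_of_odd_numPts E (by omega) (by omega) hgood hodd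
  have := numPts_quadTwist_of_isSquare E (by omega) (by omega) hΔ hsq
  rw [heq, this] at hk'
  exact hkp hk'

/-- **The refined Koblitz conjecture for discriminant twists of curves with odd torsion.**
Let `E` be an elliptic curve over `ℚ` given by an integral Weierstrass equation, with
`j(E) ≠ 0, 1728` (i.e. `c₄ c₆ ≠ 0`). Suppose that the quadratic twist of `E` by its discriminant
is isogenous over `ℚ` to an elliptic curve `E'` (that is: both have the same number of points
modulo almost all primes) having a rational point `P` of odd order `k > 1`. Then, for every odd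
`t` not divisible by `k`:
* there are only finitely many primes `p ∤ Δ` such that `|E(𝔽_p)|/t` is a prime;
* `C_{E,t} = 0`;
* the refined Koblitz conjecture holds for `(E, t)`. -/
theorem koblitzZero_disc (E : WeierstrassCurve ℤ) (h4 : E.c₄ ≠ 0) (h6 : E.c₆ ≠ 0)
    (E' : WeierstrassCurve ℤ) (hE' : E'.Δ ≠ 0)
    (hiso : {p : ℕ | p.Prime ∧ numPts E' p ≠ numPts (quadTwist E E.Δ) p}.Finite)
    (k : ℕ) (hk : Odd k) (hk1 : 1 < k) (P : (overQ E').toAffine.Point) (hP : addOrderOf P = k)
    (t : ℕ) (ht : Odd t) (hkt : ¬ k ∣ t) :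
    KoblitzZero E t := by
  have hk3 : 3 ≤ k := by
    rcases hk with ⟨a, ha⟩; omega
  apply koblitz_of_finite E h4 h6 t (2 * k) (by omega)
  refine (finite_coprime E E' hE' hiso k hk3 P hP).subset ?_
  rintro p ⟨hp, hgood, u, hu, hN⟩
  have hne : NeZero (2 * k) := ⟨by omega⟩
  -- lift `u` to a natural number
  have hu' : Nat.Coprime u.val (2 * k) := by
    have := (ZMod.isUnit_iff_coprime u.val (2 * k)).mp (by rwa [ZMod.natCast_zmod_val])
    exact this
  have hmod : numPts E p ≡ t * u.val [MOD (2 * k)] := by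
    rw [← ZMod.natCast_eq_natCast_iff, hN]
    push_cast
    rw [ZMod.natCast_zmod_val]
  refine ⟨hp, hgood, ?_, ?_⟩
  · have h2 : numPts E p ≡ t * u.val [MOD 2] := hmod.of_mul_right k
    have hodd : Odd (t * u.val) := by
      apply ht.mul
      have : Nat.Coprime u.val 2 := Nat.Coprime.coprime_mul_right_right hu'
      exact (Nat.coprime_two_right.mp this)
    rw [Nat.odd_iff] at hodd ⊢
    rw [← hodd]; exact h2
  · intro hkN
    have h3 : numPts E p ≡ t * u.val [MOD k] := hmod.of_mul_left 2
    have h4 : k ∣ t * u.val := (h3.dvd_iff (dvd_refl k)).mp hkN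
    have hcop : Nat.Coprime k u.val := (Nat.Coprime.coprime_mul_left_right hu').symm
    exact hkt (hcop.dvd_of_dvd_mul_right h4)

end Pool.Agent.Helper95.KU.DiscTwist
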