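import Pool.Agent.Helper95.KU.FamTwist

set_option autoImplicit false

/-!
# An infinite family: the number of points is `12` or `0` modulo `16`
-/

namespace Pool.Agent.Helper95.KU

open WeierstrassCurve Pool.Agent.Helper28.Koblitz Filter

theorem sixteen_dvd_card {G : Type*} [AddCommGroup G] [Finite G] (R T : G)
    (h8 : addOrderOf R = 8) (h2 : T + T = 0) (hT : T ∉ AddSubgroup.zmultiples R) :
    16 ∣ Nat.card G := by
  have : Fact (Nat.Prime 2) := ⟨Nat.prime_two⟩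
  have h := AddSubgroup.card_eq_card_quotient_mul_card_addSubgroup (AddSubgroup.zmultiples R)
  rw [Nat.card_zmultiples, h8] at h
  have hq : addOrderOf (T : G ⧸ AddSubgroup.zmultiples R) = 2 := by
    apply addOrderOf_eq_prime
    · rw [two_nsmul, ← QuotientAddGroup.mk_add, h2, QuotientAddGroup.mk_zero]
    · rw [Ne, QuotientAddGroup.eq_zero_iff]
      exact hT
  have hdvd : 2 ∣ Nat.card (G ⧸ AddSubgroup.zmultiples R) := by
    rw [← hq]
    exact addOrderOf_dvd_natCard _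
  obtain ⟨c, hc⟩ := hdvd
  exact ⟨c, by rw [h, hc]; ring⟩

/-- In a group with an element `R` of order eight, an element `T` of order two different from
`4 R` is not a multiple of `R`. -/
theorem not_mem_zmultiples {G : Type*} [AddCommGroup G] (R T : G)
    (h8 : addOrderOf R = 8) (h2 : T + T = 0) (h0 : T ≠ 0) (h4 : T ≠ (4 : ℕ) • R) :
    T ∉ AddSubgroup.zmultiples R := by
  intro hT
  obtain ⟨n, hn⟩ := AddSubgroup.mem_zmultiples_iff.mp hT
  have h1 : (2 * n) • R = 0 := by rw [two_mul, add_zsmul, hn, h2]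
  have h3 : ((addOrderOf R : ℕ) : ℤ) ∣ 2 * n := addOrderOf_dvd_iff_zsmul_eq_zero.mpr h1
  rw [h8] at h3
  have h80 : (8 : ℤ) • R = 0 := by
    rw [← addOrderOf_dvd_iff_zsmul_eq_zero, h8]
    norm_num
  have h40 : (4 : ℤ) • R = (4 : ℕ) • R := by
    rw [← natCast_zsmul]; norm_num
  obtain ⟨m, hm⟩ : ∃ m, n = 8 * m ∨ n = 8 * m + 4 := ⟨n / 8, by omega⟩
  rcases hm with rfl | rfl
  · apply h0
    rw [← hn, mul_comm, mul_zsmul, h80, smul_zero]
  · apply h4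
    rw [← hn, add_zsmul, mul_comm, mul_zsmul, h80, smul_zero, zero_add, h40]

/-- The curve `y² = x (x + u⁴) (x + v⁴)` with `u = 2 k`, `v = k² - 1`. -/
def gW {R : Type*} [CommRing R] (k : R) : WeierstrassCurve R :=
  ⟨0, (2 * k) ^ 4 + (k ^ 2 - 1) ^ 4, 0, (2 * k) ^ 4 * (k ^ 2 - 1) ^ 4, 0⟩

theorem gW_Δ {R : Type*} [CommRing R] (k : R) : (gW k).Δ =
    16 * ((2 * k) ^ 4 * (k ^ 2 - 1) ^ 4) ^ 2 * ((2 * k) ^ 4 - (k ^ 2 - 1) ^ 4) ^ 2 := by
  simp only [WeierstrassCurve.Δ, WeierstrassCurve.b₂, WeierstrassCurve.b₄,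
    WeierstrassCurve.b₆, WeierstrassCurve.b₈, gW]
  ring

theorem gW_c₄ {R : Type*} [CommRing R] (k : R) : (gW k).c₄ =
    16 * ((2 * k) ^ 8 - (2 * k) ^ 4 * (k ^ 2 - 1) ^ 4 + (k ^ 2 - 1) ^ 8) := by
  simp only [WeierstrassCurve.c₄, WeierstrassCurve.b₂, WeierstrassCurve.b₄, gW]
  ring

theorem gW_c₆ {R : Type*} [CommRing R] (k : R) : (gW k).c₆ =
    -32 * ((2 * k) ^ 4 + (k ^ 2 - 1) ^ 4) *
      ((2 * (2 * k) ^ 4 - (k ^ 2 - 1) ^ 4) * ((2 * k) ^ 4 - 2 * (k ^ 2 - 1) ^ 4)) := by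
  simp only [WeierstrassCurve.c₆, WeierstrassCurve.b₂, WeierstrassCurve.b₄,
    WeierstrassCurve.b₆, gW]
  ring

theorem gW_sixteen {F : Type*} [Field F] [Finite F] {k : F}
    (hΔ : (gW k).Δ ≠ 0) : 16 ∣ Nat.card (gW k).toAffine.Point := by
  classical
  have hΔ' := hΔ
  rw [gW_Δ] at hΔ'
  have h2 : (2 : F) ≠ 0 := by
    intro h
    apply hΔ'
    have : (16 : F) = 2 * 8 := by norm_num
    rw [this, h]; ring
  have hk : k ≠ 0 := by
    rintro rfl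
    apply hΔ'
    ring
  have hv : k ^ 2 - 1 ≠ 0 := by
    intro h
    apply hΔ'
    rw [h]; ring
  have hdif : (2 * k) ^ 4 - (k ^ 2 - 1) ^ 4 ≠ 0 := by
    intro h
    apply hΔ'
    rw [h]; ring
  have hw : k ^ 2 + 1 ≠ 0 := by
    intro h
    apply hdif
    linear_combination (-(k ^ 2 - 1 - 2 * k) * (k ^ 2 - 1 + 2 * k) * (k ^ 2 + 1)) * h
  have hadd : k ^ 2 + 2 * k - 1 ≠ 0 := by
    intro h
    apply hdif
    linear_combination (-(k ^ 2 - 1 - 2 * k) * (k ^ 2 + 1) ^ 2) * h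
  have hk1 : k + 1 ≠ 0 := by
    intro h
    apply hv
    linear_combination (k - 1) * h
  -- the point `R`
  have qR : (gW k).toAffine.Equation (4 * k ^ 3 * (k ^ 2 - 1) * (k + 1) ^ 2)
      (4 * k ^ 3 * (k ^ 2 - 1) * (k + 1) ^ 2 * (k ^ 2 + 1) * (k ^ 2 + 2 * k - 1)) := by
    rw [WeierstrassCurve.Affine.equation_iff]
    simp only [gW]
    ring
  have qQ : (gW k).toAffine.Equation (4 * k ^ 2 * (k ^ 2 - 1) ^ 2)
      (4 * k ^ 2 * (k ^ 2 - 1) ^ 2 * (k ^ 2 + 1) ^ 2) := by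
    rw [WeierstrassCurve.Affine.equation_iff]
    simp only [gW]
    ring
  have qT : (gW k).toAffine.Equation 0 0 := by
    rw [WeierstrassCurve.Affine.equation_iff]
    simp only [gW]
    ring
  have qT' : (gW k).toAffine.Equation (-(2 * k) ^ 4) 0 := by
    rw [WeierstrassCurve.Affine.equation_iff]
    simp only [gW]
    ring
  have nR := (WeierstrassCurve.Affine.equation_iff_nonsingular_of_Δ_ne_zero hΔ).mp qR
  have nQ := (WeierstrassCurve.Affine.equation_iff_nonsingular_of_Δ_ne_zero hΔ).mp qQ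
  have nT := (WeierstrassCurve.Affine.equation_iff_nonsingular_of_Δ_ne_zero hΔ).mp qT
  have nT' := (WeierstrassCurve.Affine.equation_iff_nonsingular_of_Δ_ne_zero hΔ).mp qT'
  have d1 : Affine.Point.some _ _ nR + Affine.Point.some _ _ nR = Affine.Point.some _ _ nQ := by
    refine add_self_eq (l := k ^ 4 + 4 * k ^ 3 - 1) nR nQ ?_ ?_ ?_ ?_
    · simp only [WeierstrassCurve.Affine.negY, gW]
      have : 4 * k ^ 3 * (k ^ 2 - 1) * (k + 1) ^ 2 * (k ^ 2 + 1) * (k ^ 2 + 2 * k - 1) -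
          (-(4 * k ^ 3 * (k ^ 2 - 1) * (k + 1) ^ 2 * (k ^ 2 + 1) * (k ^ 2 + 2 * k - 1)) -
            0 * (4 * k ^ 3 * (k ^ 2 - 1) * (k + 1) ^ 2) - 0) =
          2 ^ 3 * k ^ 3 * (k ^ 2 - 1) * (k + 1) ^ 2 * (k ^ 2 + 1) * (k ^ 2 + 2 * k - 1) := by ring
      rw [this]
      exact mul_ne_zero (mul_ne_zero (mul_ne_zero (mul_ne_zero (mul_ne_zero
        (pow_ne_zero 3 h2) (pow_ne_zero 3 hk)) hv) (pow_ne_zero 2 hk1)) hw) hadd
    · simp only [WeierstrassCurve.Affine.negY, gW]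
      ring
    · simp only [WeierstrassCurve.Affine.addX, gW]
      ring
    · simp only [WeierstrassCurve.Affine.addY, WeierstrassCurve.Affine.negAddY,
        WeierstrassCurve.Affine.addX, WeierstrassCurve.Affine.negY, gW]
      ring
  have d2 : Affine.Point.some _ _ nQ + Affine.Point.some _ _ nQ = Affine.Point.some _ _ nT := by
    refine add_self_eq (l := (k ^ 2 + 1) ^ 2) nQ nT ?_ ?_ ?_ ?_
    · simp only [WeierstrassCurve.Affine.negY, gW]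
      have : 4 * k ^ 2 * (k ^ 2 - 1) ^ 2 * (k ^ 2 + 1) ^ 2 -
          (-(4 * k ^ 2 * (k ^ 2 - 1) ^ 2 * (k ^ 2 + 1) ^ 2) -
            0 * (4 * k ^ 2 * (k ^ 2 - 1) ^ 2) - 0) =
          2 ^ 3 * k ^ 2 * (k ^ 2 - 1) ^ 2 * (k ^ 2 + 1) ^ 2 := by ring
      rw [this]
      exact mul_ne_zero (mul_ne_zero (mul_ne_zero (pow_ne_zero 3 h2) (pow_ne_zero 2 hk))
        (pow_ne_zero 2 hv)) (pow_ne_zero 2 hw)
    · simp only [WeierstrassCurve.Affine.negY, gW]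
      ring
    · simp only [WeierstrassCurve.Affine.addX, gW]
      ring
    · simp only [WeierstrassCurve.Affine.addY, WeierstrassCurve.Affine.negAddY,
        WeierstrassCurve.Affine.addX, WeierstrassCurve.Affine.negY, gW]
      ring
  have d3 : Affine.Point.some _ _ nT + Affine.Point.some _ _ nT = 0 := by
    apply Affine.Point.add_self_of_Y_eq
    simp [WeierstrassCurve.Affine.negY, gW]
  have d4 : Affine.Point.some _ _ nT' + Affine.Point.some _ _ nT' = 0 := by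
    apply Affine.Point.add_self_of_Y_eq
    simp [WeierstrassCurve.Affine.negY, gW]
  have e4 : (4 : ℕ) • Affine.Point.some _ _ nR = Affine.Point.some _ _ nT := by
    rw [show (4 : ℕ) = 2 + 2 from rfl, add_nsmul, two_nsmul, d1, d2]
  have h8 : addOrderOf (Affine.Point.some _ _ nR) = 8 := by
    have : Fact (Nat.Prime 2) := ⟨Nat.prime_two⟩
    have h := addOrderOf_eq_prime_pow (p := 2) (n := 2) (x := Affine.Point.some _ _ nR)
      (by rw [show 2 ^ 2 = 4 from rfl, e4]; exact Affine.Point.some_ne_zero _)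
      (by rw [show 2 ^ (2 + 1) = 4 + 4 from rfl, add_nsmul, e4, d3])
    rw [h]; norm_num
  apply sixteen_dvd_card _ _ h8 d4
  apply not_mem_zmultiples _ _ h8 d4 (Affine.Point.some_ne_zero _)
  rw [e4, Ne, Affine.Point.some.injEq]
  rintro ⟨h, -⟩
  exact pow_ne_zero 4 (mul_ne_zero h2 hk) (neg_eq_zero.mp h)

/-- The member of the family. -/
def memG (k : ℤ) : WeierstrassCurve ℤ := quadTwist (gW k) (-2)

theorem gW_map {R S : Type*} [CommRing R] [CommRing S] (f : R →+* S) (k : R) :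
    (gW k).map f = gW (f k) := by
  ext <;> simp [gW, map_ofNat]

section

variable {k : ℤ} (hk : 5 ≤ k)

include hk

theorem gu_lt : 0 < 2 * k ∧ 2 * (2 * k) ≤ k ^ 2 - 1 := by
  constructor
  · omega
  · nlinarith

theorem gu_pow : 0 < (2 * k) ^ 4 ∧ 16 * (2 * k) ^ 4 ≤ (k ^ 2 - 1) ^ 4 := by
  obtain ⟨h1, h2⟩ := gu_lt hk
  refine ⟨by positivity, ?_⟩
  have h3 : (2 * (2 * k)) ^ 4 ≤ (k ^ 2 - 1) ^ 4 := pow_le_pow_left₀ (by positivity) h2 4
  have h4 : (2 * (2 * k)) ^ 4 = 16 * (2 * k) ^ 4 := by ring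
  linarith

theorem gW_Δ_ne_zero : (gW k).Δ ≠ 0 := by
  rw [gW_Δ]
  obtain ⟨h1, h2⟩ := gu_pow hk
  have h3 : 0 < (k ^ 2 - 1) ^ 4 := by linarith
  have h4 : (2 * k) ^ 4 - (k ^ 2 - 1) ^ 4 < 0 := by linarith
  exact mul_ne_zero (mul_ne_zero (by norm_num) (pow_ne_zero 2 (mul_pos h1 h3).ne'))
    (pow_ne_zero 2 h4.ne)

theorem gW_c₄_pos : 0 < (gW k).c₄ := by
  rw [gW_c₄]
  obtain ⟨h1, h2⟩ := gu_pow hk
  have e1 : (2 * k) ^ 8 - (2 * k) ^ 4 * (k ^ 2 - 1) ^ 4 + (k ^ 2 - 1) ^ 8 =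
      ((2 * k) ^ 4) ^ 2 + (k ^ 2 - 1) ^ 4 * ((k ^ 2 - 1) ^ 4 - (2 * k) ^ 4) := by ring
  rw [e1]
  have h3 : 0 < (k ^ 2 - 1) ^ 4 := by linarith
  have h4 : 0 < (k ^ 2 - 1) ^ 4 - (2 * k) ^ 4 := by linarith
  have h5 := mul_pos h3 h4
  have h6 : 0 < ((2 * k) ^ 4) ^ 2 := by positivity
  linarith

theorem gW_c₆_ne_zero : (gW k).c₆ ≠ 0 := by
  rw [gW_c₆]
  obtain ⟨h1, h2⟩ := gu_pow hk
  have h3 : 0 < (2 * k) ^ 4 + (k ^ 2 - 1) ^ 4 := by linarith
  have h4 : 2 * (2 * k) ^ 4 - (k ^ 2 - 1) ^ 4 < 0 := by linarith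
  have h5 : (2 * k) ^ 4 - 2 * (k ^ 2 - 1) ^ 4 < 0 := by linarith
  exact mul_ne_zero (mul_ne_zero (by norm_num) h3.ne') (mul_ne_zero h4.ne h5.ne)

theorem memG_c₄_ne_zero : (memG k).c₄ ≠ 0 := by
  unfold memG
  rw [quadTwist_c₄]
  exact mul_ne_zero (mul_ne_zero (by norm_num) (gW_c₄_pos hk).ne') (by norm_num)

theorem memG_c₆_ne_zero : (memG k).c₆ ≠ 0 := by
  unfold memG
  rw [quadTwist_c₆]
  exact mul_ne_zero (mul_ne_zero (by norm_num) (gW_c₆_ne_zero hk)) (by norm_num)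

theorem finite_memG :
    {p : ℕ | p.Prime ∧ ¬ (16 ∣ numPts (memG k) p ∨ numPts (memG k) p % 16 = 12)}.Finite := by
  refine ((finite_dvd (gW_Δ_ne_zero hk)).union (Set.finite_Iic 3)).subset ?_
  rintro p ⟨hp, hN⟩
  by_contra hcon
  rw [Set.mem_union, not_or] at hcon
  obtain ⟨c2, c3⟩ := hcon
  rw [Set.mem_Iic, not_le] at c3
  have : Fact p.Prime := ⟨hp⟩
  apply hN
  have hΔ : (gW ((k : ℤ) : ZMod p)).Δ ≠ 0 := by
    have h := WeierstrassCurve.map_Δ (gW k) (Int.castRingHom (ZMod p))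
    rw [gW_map, eq_intCast, eq_intCast] at h
    rw [h, Ne, ZMod.intCast_zmod_eq_zero_iff_dvd]
    exact c2
  have h16 : 16 ∣ numPts (gW k) p := by
    have h := gW_sixteen hΔ
    have h2 : numPts (gW k) p = Nat.card (gW ((k : ℤ) : ZMod p)).toAffine.Point := by
      rw [card_point _ hΔ]
      unfold numPts
      rw [gW_map]
      rfl
    rw [h2]
    exact h
  have hcast : ((-2 : ℤ) : ZMod p) = -2 := by push_cast; ring
  by_cases hsq : IsSquare ((-2 : ℤ) : ZMod p)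
  · left
    have hD0 : ((-2 : ℤ) : ZMod p) ≠ 0 := by
      rw [hcast]
      exact neg_ne_zero.mpr (two_ne_zero_zmod hp (by omega))
    have h1 : numPts (memG k) p = numPts (gW k) p :=
      numPts_quadTwist_of_isSquare (gW k) (by omega) (by omega) hD0 hsq
    rw [h1]
    exact h16
  · have hadd : numPts (memG k) p + numPts (gW k) p = 2 * p + 2 :=
      numPts_quadTwist_add (gW k) (by omega) (by omega) hsq
    rw [hcast, ZMod.exists_sq_eq_neg_two_iff (by omega)] at hsq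
    have hodd : p % 2 = 1 := by
      rcases hp.eq_two_or_odd with h | h
      · omega
      · exact h
    omega

theorem koblitzZero_memG (t : ℕ) (ht : t % 16 = 8) : KoblitzZero (memG k) t := by
  apply koblitz_of_finite (memG k) (memG_c₄_ne_zero hk) (memG_c₆_ne_zero hk) t 16 (by norm_num)
  refine (finite_memG hk).subset ?_
  rintro p ⟨hp, hgood, u, hu, hN⟩
  have hu' : Nat.Coprime u.val 16 := by
    have := (ZMod.isUnit_iff_coprime u.val 16).mp (by rwa [ZMod.natCast_zmod_val])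
    exact this
  have hmod : numPts (memG k) p ≡ t * u.val [MOD 16] := by
    rw [← ZMod.natCast_eq_natCast_iff, hN]
    push_cast
    rw [ZMod.natCast_zmod_val]
  have hodd : u.val % 2 = 1 := by
    have h2 : Nat.Coprime u.val 2 := Nat.Coprime.coprime_dvd_right (by norm_num) hu'
    rwa [Nat.coprime_two_right, Nat.odd_iff] at h2
  have h8 : numPts (memG k) p % 16 = 8 := by
    have h3 : numPts (memG k) p % 16 = (t * u.val) % 16 := hmod
    rw [h3, Nat.mul_mod, ht]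
    have : u.val % 16 < 16 := Nat.mod_lt _ (by norm_num)
    omega
  refine ⟨hp, ?_⟩
  omega

theorem j_memG : (k : ℚ) ≤ ((memG k).c₄ : ℚ) ^ 3 / ((memG k).Δ : ℚ) := by
  unfold memG
  rw [j_quadTwist _ (by norm_num), gW_c₄, gW_Δ]
  obtain ⟨x, hx⟩ : ∃ x : ℚ, x = k := ⟨_, rfl⟩
  have hx5 : 5 ≤ x := by rw [hx]; exact_mod_cast hk
  obtain ⟨u, hu⟩ : ∃ u : ℚ, u = 2 * x := ⟨_, rfl⟩
  obtain ⟨v, hv⟩ : ∃ v : ℚ, v = x ^ 2 - 1 := ⟨_, rfl⟩
  push_cast
  rw [← hx, ← hu, ← hv]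
  have hu0 : 0 < u := by rw [hu]; linarith
  have huv : x * u ≤ 3 * v := by rw [hu, hv]; nlinarith
  have huv1 : u ≤ v := by rw [hu, hv]; nlinarith
  have hv0 : 0 < v := by linarith
  have hlt : u ^ 4 < v ^ 4 := by
    apply pow_lt_pow_left₀ _ hu0.le (by norm_num)
    rw [hu, hv]; nlinarith
  have hpos : 0 < 16 * (u ^ 4 * v ^ 4) ^ 2 * (u ^ 4 - v ^ 4) ^ 2 := by
    have h1 : 0 < (u ^ 4 - v ^ 4) ^ 2 := by
      have : u ^ 4 - v ^ 4 ≠ 0 := by linarith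
      positivity
    positivity
  rw [le_div_iff₀ hpos]
  have h1 : (u ^ 4 - v ^ 4) ^ 2 ≤ v ^ 8 := by
    have h2 : (v ^ 4 - u ^ 4) ^ 2 ≤ (v ^ 4) ^ 2 :=
      pow_le_pow_left₀ (by linarith) (by linarith [pow_pos hu0 4]) 2
    have h3 : (v ^ 4 - u ^ 4) ^ 2 = (u ^ 4 - v ^ 4) ^ 2 := by ring
    have h4 : (v ^ 4) ^ 2 = v ^ 8 := by ring
    linarith
  have h2 : 3 / 4 * v ^ 8 ≤ u ^ 8 - u ^ 4 * v ^ 4 + v ^ 8 := by
    have : u ^ 8 - u ^ 4 * v ^ 4 + v ^ 8 = (u ^ 4 - v ^ 4 / 2) ^ 2 + 3 / 4 * v ^ 8 := by ring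
    rw [this]
    have := sq_nonneg (u ^ 4 - v ^ 4 / 2)
    linarith
  have h3 : (3 / 4 * v ^ 8) ^ 3 ≤ (u ^ 8 - u ^ 4 * v ^ 4 + v ^ 8) ^ 3 :=
    pow_le_pow_left₀ (by positivity) h2 3
  have h4 : (x * u) ^ 8 ≤ (3 * v) ^ 8 := pow_le_pow_left₀ (by positivity) huv 8
  have h5 : x * u ^ 8 ≤ 108 * v ^ 8 := by
    have h6 : (125 : ℚ) ≤ x ^ 7 := by
      have h7 : (5 : ℚ) ^ 7 ≤ x ^ 7 := pow_le_pow_left₀ (by norm_num) hx5 7
      linarith
    have h8 : 125 * (x * u ^ 8) ≤ x ^ 7 * (x * u ^ 8) :=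
      mul_le_mul_of_nonneg_right h6 (by positivity)
    have h9 : x ^ 7 * (x * u ^ 8) = (x * u) ^ 8 := by ring
    have h10 : (3 * v) ^ 8 = 6561 * v ^ 8 := by ring
    have h11 : 0 < v ^ 8 := by positivity
    linarith
  calc x * (16 * (u ^ 4 * v ^ 4) ^ 2 * (u ^ 4 - v ^ 4) ^ 2)
      ≤ x * (16 * (u ^ 4 * v ^ 4) ^ 2 * v ^ 8) := by gcongr
    _ = 16 * v ^ 16 * (x * u ^ 8) := by ring
    _ ≤ 16 * v ^ 16 * (108 * v ^ 8) := by gcongr
    _ = 16 ^ 3 * (3 / 4 * v ^ 8) ^ 3 := by ring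
    _ ≤ 16 ^ 3 * (u ^ 8 - u ^ 4 * v ^ 4 + v ^ 8) ^ 3 := by gcongr
    _ = (16 * (u ^ 8 - u ^ 4 * v ^ 4 + v ^ 8)) ^ 3 := by ring

end

theorem memG_cast {k : ℤ} {p : ℕ} {r : ZMod p} (hv : (k : ZMod p) = r) :
    numPts (memG k) p = Nat.card {q : ZMod p × ZMod p //
      q.2 ^ 2 = q.1 ^ 3 + (-27 * (gW r).c₄ * (-2) ^ 2) * q.1 + (-54 * (gW r).c₆ * (-2) ^ 3)} + 1 := by
  have a1 := WeierstrassCurve.map_c₄ (gW k) (Int.castRingHom (ZMod p))
  have a2 := WeierstrassCurve.map_c₆ (gW k) (Int.castRingHom (ZMod p))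
  rw [gW_map, eq_intCast, eq_intCast, hv] at a1 a2
  exact numPts_quadTwist_short (gW k) a1.symm a2.symm (by push_cast; ring)

theorem memG_good {k : ℤ} {p : ℕ} {r : ZMod p} (hv : (k : ZMod p) = r)
    (h0 : (6 ^ 12 * (gW r).Δ * (-2) ^ 6 : ZMod p) ≠ 0) : ¬ ((p : ℤ) ∣ (memG k).Δ) := by
  intro hd
  apply h0
  have a1 := WeierstrassCurve.map_Δ (gW k) (Int.castRingHom (ZMod p))
  rw [gW_map, eq_intCast, eq_intCast, hv] at a1
  rw [a1]
  unfold memG at hd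
  rw [quadTwist_Δ, ← ZMod.intCast_zmod_eq_zero_iff_dvd] at hd
  exact_mod_cast hd

theorem exists_memG (B : ℚ) : ∃ k : ℤ, 5 ≤ k ∧
    B < ((memG k).c₄ : ℚ) ^ 3 / ((memG k).Δ : ℚ) ∧ ¬ ((11 : ℤ) ∣ (memG k).Δ) ∧
    numPts (memG k) 11 = 16 ∧ ¬ ((13 : ℤ) ∣ (memG k).Δ) ∧ numPts (memG k) 13 = 12 := by
  obtain ⟨n, hn⟩ := exists_nat_gt B
  set k : ℤ := 143 * (n + 1 : ℕ) + 2 with hk
  have h11 : (k : ZMod 11) = 2 := by
    have : k = 2 + 11 * (13 * (n + 1 : ℕ)) := by rw [hk]; ring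
    rw [this]; push_cast
    have h0 : (11 : ZMod 11) = 0 := by decide
    rw [h0]; ring
  have h13 : (k : ZMod 13) = 2 := by
    have : k = 2 + 13 * (11 * (n + 1 : ℕ)) := by rw [hk]; ring
    rw [this]; push_cast
    have h0 : (13 : ZMod 13) = 0 := by decide
    rw [h0]; ring
  have hk5 : 5 ≤ k := by omega
  have hB : B < k := by
    have h1 : (0 : ℚ) ≤ (n : ℚ) := by positivity
    rw [hk]
    push_cast
    linarith
  refine ⟨k, hk5, lt_of_lt_of_le hB (j_memG hk5), memG_good (p := 11) h11 (by decide), ?_,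
    memG_good (p := 13) h13 (by decide), ?_⟩
  · rw [memG_cast h11, Nat.card_eq_fintype_card]
    decide
  · rw [memG_cast h13, Nat.card_eq_fintype_card]
    decide

end Pool.Agent.Helper95.KU
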