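import Pool.Agent.Helper95.KU.EightThree

set_option autoImplicit false

/-!
# An infinite family: if the number of points is divisible by eight then it is divisible by three
-/

namespace Pool.Agent.Helper95.KU

open WeierstrassCurve Pool.Agent.Helper28.Koblitz Filter

section

variable {R S : Type*} [CommRing R] [CommRing S]

def cC (l : R) : R := 36 * l ^ 4
def cA (l : R) : R := 1 + 6 * cC l - 3 * cC l ^ 2
def cB (l : R) : R := -16 * cC l ^ 3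
def cD (l : R) : R := (cC l + 1) * (9 * cC l + 1)

theorem map_cC (f : R →+* S) (l : R) : f (cC l) = cC (f l) := by simp [cC, map_ofNat]
theorem map_cA (f : R →+* S) (l : R) : f (cA l) = cA (f l) := by simp [cA, map_cC, map_ofNat]
theorem map_cB (f : R →+* S) (l : R) : f (cB l) = cB (f l) := by simp [cB, map_cC, map_ofNat]
theorem map_cD (f : R →+* S) (l : R) : f (cD l) = cD (f l) := by simp [cD, map_cC, map_ofNat]

theorem c_disc (l : R) : cA l ^ 2 - 4 * cB l = cD l * (cC l + 1) ^ 2 := by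
  unfold cA cB cD
  ring

end

/-- The curve with a rational point of order six. -/
def six3 (l : ℤ) : WeierstrassCurve ℤ := ⟨0, cA l, 0, cB l, 0⟩

/-- The member of the family. -/
def mem3 (l : ℤ) : WeierstrassCurve ℤ := ⟨0, cA l * cD l, 0, cB l * cD l ^ 2, 0⟩

theorem six3_c₄ (l : ℤ) : (six3 l).c₄ = 16 * (cA l ^ 2 - 3 * cB l) := by
  simp only [WeierstrassCurve.c₄, WeierstrassCurve.b₂, WeierstrassCurve.b₄, six3]; ring

theorem six3_c₆ (l : ℤ) : (six3 l).c₆ = 32 * cA l * (9 * cB l - 2 * cA l ^ 2) := by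
  simp only [WeierstrassCurve.c₆, WeierstrassCurve.b₂, WeierstrassCurve.b₄,
    WeierstrassCurve.b₆, six3]; ring

theorem mem3_c₄ (l : ℤ) : (mem3 l).c₄ = cD l ^ 2 * (six3 l).c₄ := by
  rw [six3_c₄]
  simp only [WeierstrassCurve.c₄, WeierstrassCurve.b₂, WeierstrassCurve.b₄, mem3]; ring

theorem mem3_c₆ (l : ℤ) : (mem3 l).c₆ = cD l ^ 3 * (six3 l).c₆ := by
  rw [six3_c₆]
  simp only [WeierstrassCurve.c₆, WeierstrassCurve.b₂, WeierstrassCurve.b₄,
    WeierstrassCurve.b₆, mem3]; ring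

theorem mem3_Δ (l : ℤ) : (mem3 l).Δ = 16 * cB l ^ 2 * cD l ^ 7 * (cC l + 1) ^ 2 := by
  have h : (mem3 l).Δ = 16 * cB l ^ 2 * cD l ^ 6 * (cA l ^ 2 - 4 * cB l) := by
    simp only [WeierstrassCurve.Δ, WeierstrassCurve.b₂, WeierstrassCurve.b₄,
      WeierstrassCurve.b₆, WeierstrassCurve.b₈, mem3]; ring
  rw [h, c_disc]; ring

theorem six3_Δ (l : ℤ) : (six3 l).Δ = 16 * cB l ^ 2 * (cD l * (cC l + 1) ^ 2) := by
  rw [← c_disc]
  simp only [WeierstrassCurve.Δ, WeierstrassCurve.b₂, WeierstrassCurve.b₄,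
      WeierstrassCurve.b₆, WeierstrassCurve.b₈, six3]; ring

section

variable {l : ℤ} (hl : 0 < l)

include hl

theorem cC_pos : 36 ≤ cC l := by
  unfold cC
  have : 1 ≤ l ^ 4 := one_le_pow₀ (by omega)
  omega

theorem cB_neg : cB l < 0 := by
  have := cC_pos hl
  have : 0 < cC l ^ 3 := by positivity
  unfold cB; linarith

theorem cD_pos : 0 < cD l := by
  have := cC_pos hl
  unfold cD; positivity

theorem cA_neg : cA l < 0 := by
  have := cC_pos hl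
  unfold cA; nlinarith

theorem six3_Δ_ne_zero : (six3 l).Δ ≠ 0 := by
  rw [six3_Δ]
  have h1 := cC_pos hl
  have h2 := (cB_neg hl).ne
  have h3 := cD_pos hl
  have h4 : 0 < cB l ^ 2 := by positivity
  positivity

theorem mem3_Δ_ne_zero : (mem3 l).Δ ≠ 0 := by
  rw [mem3_Δ]
  have h1 := cC_pos hl
  have h2 := (cB_neg hl).ne
  have h3 := cD_pos hl
  have h4 : 0 < cB l ^ 2 := by positivity
  positivity

theorem mem3_c₄_ne_zero : (mem3 l).c₄ ≠ 0 := by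
  rw [mem3_c₄, six3_c₄]
  have h2 := cB_neg hl
  have h3 := cD_pos hl
  have h4 : 0 < cA l ^ 2 - 3 * cB l := by nlinarith [sq_nonneg (cA l)]
  positivity

theorem mem3_c₆_ne_zero : (mem3 l).c₆ ≠ 0 := by
  rw [mem3_c₆, six3_c₆]
  have h1 := cA_neg hl
  have h2 := cB_neg hl
  have h3 := cD_pos hl
  have h4 : 9 * cB l - 2 * cA l ^ 2 < 0 := by nlinarith [sq_nonneg (cA l)]
  refine mul_ne_zero (pow_ne_zero 3 h3.ne') (mul_ne_zero (mul_ne_zero (by norm_num) h1.ne) h4.ne)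

end

theorem mem3_data {l : ℤ} (hl : 0 < l) : EightData (mem3 l) (12 * cA (l : ℚ) * cD (l : ℚ))
    (31104 * (l : ℚ) ^ 6 * cD (l : ℚ)) (cD (l : ℚ) * (cC (l : ℚ) + 1) / (12 * (l : ℚ) ^ 3)) := by
  have hl' : (l : ℚ) ≠ 0 := by exact_mod_cast hl.ne'
  have eA : ((cA l : ℤ) : ℚ) = cA (l : ℚ) := by
    have := map_cA (Int.castRingHom ℚ) l
    simpa using this
  have eB : ((cB l : ℤ) : ℚ) = cB (l : ℚ) := by
    have := map_cB (Int.castRingHom ℚ) l
    simpa using this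
  have eD : ((cD l : ℤ) : ℚ) = cD (l : ℚ) := by
    have := map_cD (Int.castRingHom ℚ) l
    simpa using this
  have h4 : ((mem3 l).c₄ : ℚ) = cD (l : ℚ) ^ 2 * (16 * (cA (l : ℚ) ^ 2 - 3 * cB (l : ℚ))) := by
    rw [mem3_c₄, six3_c₄, ← eA, ← eB, ← eD]; push_cast; ring
  have h6 : ((mem3 l).c₆ : ℚ) =
      cD (l : ℚ) ^ 3 * (32 * cA (l : ℚ) * (9 * cB (l : ℚ) - 2 * cA (l : ℚ) ^ 2)) := by
    rw [mem3_c₆, six3_c₆, ← eA, ← eB, ← eD]; push_cast; ring
  refine ⟨?_, ?_, ?_⟩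
  · rw [h4, h6]; ring
  · rw [h4]
    have : cB (l : ℚ) = -16 * (36 * (l : ℚ) ^ 4) ^ 3 := rfl
    rw [this]; ring
  · have h := c_disc (l : ℚ)
    have hB : cB (l : ℚ) = -16 * (36 * (l : ℚ) ^ 4) ^ 3 := rfl
    have e1 : 9 * (12 * cA (l : ℚ) * cD (l : ℚ)) ^ 2 + 4 * (31104 * (l : ℚ) ^ 6 * cD (l : ℚ)) ^ 2 =
        1296 * cD (l : ℚ) ^ 2 * (cA (l : ℚ) ^ 2 - 4 * cB (l : ℚ)) := by
      rw [hB]; ring
    rw [e1, h]
    field_simp
    ring

/-- The point of order three. -/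
theorem six3_point {l : ℤ} (hl : 0 < l) :
    ∃ P : (overQ (six3 l)).toAffine.Point, addOrderOf P = 3 := by
  have : Fact (Nat.Prime 3) := ⟨Nat.prime_three⟩
  obtain ⟨c, hc⟩ : ∃ c : ℚ, c = (cC l : ℤ) := ⟨_, rfl⟩
  have hc0 : 0 < c := by
    have := cC_pos hl
    rw [hc]
    have h36 : (36 : ℚ) ≤ ((cC l : ℤ) : ℚ) := by exact_mod_cast this
    linarith
  have hW : (overQ (six3 l)) = ⟨0, 1 + 6 * c - 3 * c ^ 2, 0, -16 * c ^ 3, 0⟩ := by
    ext
    · simp [six3]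
    · simp [six3, cA, hc]
    · simp [six3]
    · simp [six3, cB, hc]
    · simp [six3]
  rw [hW]
  obtain ⟨W, hW'⟩ : ∃ W : WeierstrassCurve ℚ, W = ⟨0, 1 + 6 * c - 3 * c ^ 2, 0, -16 * c ^ 3, 0⟩ :=
    ⟨_, rfl⟩
  have hΔ : W.Δ ≠ 0 := by
    have : W.Δ = 16 * (-16 * c ^ 3) ^ 2 * ((c + 1) ^ 3 * (9 * c + 1)) := by
      rw [hW']
      simp only [WeierstrassCurve.Δ, WeierstrassCurve.b₂, WeierstrassCurve.b₄,
        WeierstrassCurve.b₆, WeierstrassCurve.b₈]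
      ring
    rw [this]
    positivity
  rw [← hW']
  have heq : W.toAffine.Equation (4 * c ^ 2) (4 * c ^ 2 * (c + 1)) := by
    rw [WeierstrassCurve.Affine.equation_iff, hW']
    ring
  have hns : W.toAffine.Nonsingular (4 * c ^ 2) (4 * c ^ 2 * (c + 1)) :=
    (WeierstrassCurve.Affine.equation_iff_nonsingular_of_Δ_ne_zero hΔ).mp heq
  have heq' : W.toAffine.Equation (4 * c ^ 2) (-(4 * c ^ 2 * (c + 1))) := by
    rw [WeierstrassCurve.Affine.equation_iff, hW']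
    ring
  have hns' : W.toAffine.Nonsingular (4 * c ^ 2) (-(4 * c ^ 2 * (c + 1))) :=
    (WeierstrassCurve.Affine.equation_iff_nonsingular_of_Δ_ne_zero hΔ).mp heq'
  have hdbl : Affine.Point.some _ _ hns + Affine.Point.some _ _ hns =
      Affine.Point.some _ _ hns' := by
    refine add_self_eq (l := 3 * c + 1) hns hns' ?_ ?_ ?_ ?_
    · rw [hW']
      simp only [WeierstrassCurve.Affine.negY]
      have : 0 < 4 * c ^ 2 * (c + 1) := by positivity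
      intro h
      linarith
    · rw [hW']
      simp only [WeierstrassCurve.Affine.negY]
      ring
    · rw [hW']
      simp only [WeierstrassCurve.Affine.addX]
      ring
    · rw [hW']
      simp only [WeierstrassCurve.Affine.addY, WeierstrassCurve.Affine.negAddY,
        WeierstrassCurve.Affine.addX, WeierstrassCurve.Affine.negY]
      ring
  refine ⟨Affine.Point.some _ _ hns, addOrderOf_eq_prime ?_ ?_⟩
  · have h3 : (3 : ℕ) • Affine.Point.some _ _ hns =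
        Affine.Point.some _ _ hns + Affine.Point.some _ _ hns + Affine.Point.some _ _ hns := by
      rw [succ_nsmul, two_nsmul]
    rw [h3, hdbl]
    have hneg : Affine.Point.some _ _ hns' = - Affine.Point.some _ _ hns := by
      rw [Affine.Point.neg_some, Affine.Point.some.injEq]
      refine ⟨rfl, ?_⟩
      rw [hW']
      simp only [WeierstrassCurve.Affine.negY]
      ring
    rw [hneg, neg_add_cancel]
  · exact Affine.Point.some_ne_zero _

theorem six3_iso {l : ℤ} (hl : 0 < l) :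
    {p : ℕ | p.Prime ∧ numPts (six3 l) p ≠ numPts (quadTwist (mem3 l) (mem3 l).Δ) p}.Finite := by
  have hs0 : 4 * cB l * cD l ^ 4 * (cC l + 1) ≠ 0 := by
    have h1 := cC_pos hl
    have h2 := (cB_neg hl).ne
    have h3 := (cD_pos hl).ne'
    exact mul_ne_zero (mul_ne_zero (mul_ne_zero (by norm_num) h2) (pow_ne_zero 4 h3)) (by omega)
  refine ((finite_dvd hs0).union (Set.finite_Iic 3)).subset ?_
  rintro p ⟨hp, hne⟩
  by_contra hcon
  rw [Set.mem_union, not_or] at hcon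
  obtain ⟨c1, c2⟩ := hcon
  rw [Set.mem_Iic, not_le] at c2
  have : Fact p.Prime := ⟨hp⟩
  apply hne
  have htw : quadTwist (mem3 l) (mem3 l).Δ = quadTwist (six3 l) ((4 * cB l * cD l ^ 4 * (cC l + 1)) ^ 2) := by
    unfold quadTwist
    rw [mem3_c₄, mem3_c₆, mem3_Δ]
    ext
    · rfl
    · rfl
    · rfl
    · show _ = _
      ring
    · show _ = _
      ring
  rw [htw]
  have hcast : (((4 * cB l * cD l ^ 4 * (cC l + 1)) ^ 2 : ℤ) : ZMod p) ≠ 0 := by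
    rw [Int.cast_pow]
    apply pow_ne_zero
    rw [Ne, ZMod.intCast_zmod_eq_zero_iff_dvd]
    exact c1
  exact (numPts_quadTwist_of_isSquare (six3 l) (by omega) (by omega) hcast
    ⟨((4 * cB l * cD l ^ 4 * (cC l + 1) : ℤ) : ZMod p), by rw [Int.cast_pow, sq]⟩).symm

theorem six3_three {l : ℤ} (hl : 0 < l) :
    {p : ℕ | p.Prime ∧ ¬ 3 ∣ numPts (six3 l) p}.Finite := by
  obtain ⟨P, hP⟩ := six3_point hl
  have h := eventually_dvd_numPts (six3 l) (six3_Δ_ne_zero hl) P 3 le_rfl hP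
  rw [Filter.eventually_cofinite] at h
  refine h.subset ?_
  rintro p ⟨hp, h3⟩ hcc
  exact h3 (hcc hp)

theorem koblitzZero_mem3 {l : ℤ} (hl : 0 < l) (t : ℕ) (ht8 : 8 ∣ t) (ht3 : ¬ 3 ∣ t) :
    KoblitzZero (mem3 l) t :=
  koblitzZero_eight (mem3 l) (six3 l) (mem3_c₄_ne_zero hl) (mem3_c₆_ne_zero hl)
    (mem3_Δ_ne_zero hl) (mem3_data hl) (six3_iso hl) (six3_three hl) t ht8 ht3

theorem j_mem3 {l : ℤ} (hl : 0 < l) {B : ℚ} (hB : B < l) :
    B < ((mem3 l).c₄ : ℚ) ^ 3 / ((mem3 l).Δ : ℚ) := by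
  obtain ⟨c, hc⟩ : ∃ c : ℚ, c = (cC l : ℤ) := ⟨_, rfl⟩
  have hc36 : 36 ≤ c := by
    have := cC_pos hl
    rw [hc]
    exact_mod_cast this
  have hcl : (l : ℚ) ≤ c := by
    rw [hc]
    have : l ≤ cC l := by
      unfold cC
      have h1 : l ≤ l ^ 4 := le_self_pow₀ (by omega) (by norm_num)
      have h2 : 0 < l ^ 4 := by positivity
      linarith
    exact_mod_cast this
  have h4 : ((mem3 l).c₄ : ℚ) = ((c + 1) * (9 * c + 1)) ^ 2 *
      (16 * ((1 + 6 * c - 3 * c ^ 2) ^ 2 + 48 * c ^ 3)) := by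
    rw [mem3_c₄, six3_c₄, hc]
    unfold cD cA cB
    push_cast
    ring
  have hD : ((mem3 l).Δ : ℚ) = 16 * (-16 * c ^ 3) ^ 2 * ((c + 1) * (9 * c + 1)) ^ 7 * (c + 1) ^ 2 := by
    rw [mem3_Δ, hc]
    unfold cD cB
    push_cast
    ring
  rw [h4, hD]
  have hpos : 0 < 16 * (-16 * c ^ 3) ^ 2 * ((c + 1) * (9 * c + 1)) ^ 7 * (c + 1) ^ 2 := by
    positivity
  rw [lt_div_iff₀ hpos]
  have hlt : B * (16 * (-16 * c ^ 3) ^ 2 * ((c + 1) * (9 * c + 1)) ^ 7 * (c + 1) ^ 2) <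
      c * (16 * (-16 * c ^ 3) ^ 2 * ((c + 1) * (9 * c + 1)) ^ 7 * (c + 1) ^ 2) :=
    mul_lt_mul_of_pos_right (by linarith) hpos
  refine lt_of_lt_of_le hlt ?_
  have hA : 4 * c ^ 4 ≤ (1 + 6 * c - 3 * c ^ 2) ^ 2 + 48 * c ^ 3 := by
    have h1 : 2 * c ^ 2 ≤ 3 * c ^ 2 - 6 * c - 1 := by nlinarith
    have h2 : (2 * c ^ 2) ^ 2 ≤ (3 * c ^ 2 - 6 * c - 1) ^ 2 :=
      pow_le_pow_left₀ (by positivity) h1 2
    have h3 : 0 ≤ 48 * c ^ 3 := by positivity
    have h4 : (3 * c ^ 2 - 6 * c - 1) ^ 2 = (1 + 6 * c - 3 * c ^ 2) ^ 2 := by ring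
    have h5 : (2 * c ^ 2) ^ 2 = 4 * c ^ 4 := by ring
    linarith
  have hA3 : (4 * c ^ 4) ^ 3 ≤ ((1 + 6 * c - 3 * c ^ 2) ^ 2 + 48 * c ^ 3) ^ 3 :=
    pow_le_pow_left₀ (by positivity) hA 3
  have hK : 0 < ((c + 1) * (9 * c + 1)) ^ 6 := by positivity
  have e1 : (c + 1) ^ 3 ≤ (2 * c) ^ 3 := pow_le_pow_left₀ (by linarith) (by linarith) 3
  have e2 : 9 * c + 1 ≤ 10 * c := by linarith
  calc c * (16 * (-16 * c ^ 3) ^ 2 * ((c + 1) * (9 * c + 1)) ^ 7 * (c + 1) ^ 2)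
      = 4096 * ((c + 1) * (9 * c + 1)) ^ 6 * (c ^ 7 * ((c + 1) ^ 3 * (9 * c + 1))) := by ring
    _ ≤ 4096 * ((c + 1) * (9 * c + 1)) ^ 6 * (c ^ 7 * ((2 * c) ^ 3 * (10 * c))) := by gcongr
    _ = 4096 * ((c + 1) * (9 * c + 1)) ^ 6 * (80 * c ^ 11) := by ring
    _ ≤ 4096 * ((c + 1) * (9 * c + 1)) ^ 6 * (4 * c ^ 4) ^ 3 := by
        have : 80 * c ^ 11 ≤ (4 * c ^ 4) ^ 3 := by
          have h0 : 0 ≤ c ^ 11 := by positivity
          have : (4 * c ^ 4) ^ 3 = 64 * c * c ^ 11 := by ring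
          rw [this]
          nlinarith
        gcongr
    _ ≤ 4096 * ((c + 1) * (9 * c + 1)) ^ 6 *
        ((1 + 6 * c - 3 * c ^ 2) ^ 2 + 48 * c ^ 3) ^ 3 := by gcongr
    _ = (((c + 1) * (9 * c + 1)) ^ 2 * (16 * ((1 + 6 * c - 3 * c ^ 2) ^ 2 + 48 * c ^ 3))) ^ 3 := by
        ring

theorem numPts_mem3 {l : ℤ} {p : ℕ} {r : ZMod p} (hv : (l : ZMod p) = r) :
    numPts (mem3 l) p = Nat.card {q : ZMod p × ZMod p //
      q.2 ^ 2 = q.1 ^ 3 + (cA r * cD r) * q.1 ^ 2 + (cB r * cD r ^ 2) * q.1} + 1 := by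
  unfold numPts
  have hs : ∀ q : ZMod p × ZMod p,
      ((mem3 l).map (Int.castRingHom (ZMod p))).toAffine.Equation q.1 q.2 ↔
      q.2 ^ 2 = q.1 ^ 3 + (cA r * cD r) * q.1 ^ 2 + (cB r * cD r ^ 2) * q.1 := by
    intro q
    rw [WeierstrassCurve.Affine.equation_iff, ← hv]
    have a1 := map_cA (Int.castRingHom (ZMod p)) l
    have a2 := map_cB (Int.castRingHom (ZMod p)) l
    have a3 := map_cD (Int.castRingHom (ZMod p)) l
    simp only [eq_intCast] at a1 a2 a3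
    rw [← a1, ← a2, ← a3]
    simp [mem3, WeierstrassCurve.map]
  rw [Nat.card_congr (Equiv.subtypeEquivRight hs)]

theorem good_mem3 {l : ℤ} {p : ℕ} {r : ZMod p} (hv : (l : ZMod p) = r)
    (h0 : (16 * cB r ^ 2 * cD r ^ 7 * (cC r + 1) ^ 2 : ZMod p) ≠ 0) :
    ¬ ((p : ℤ) ∣ (mem3 l).Δ) := by
  intro hd
  apply h0
  have h1 : ((mem3 l).Δ : ZMod p) = 16 * cB r ^ 2 * cD r ^ 7 * (cC r + 1) ^ 2 := by
    rw [mem3_Δ, ← hv]
    have a1 := map_cB (Int.castRingHom (ZMod p)) l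
    have a2 := map_cC (Int.castRingHom (ZMod p)) l
    have a3 := map_cD (Int.castRingHom (ZMod p)) l
    simp only [eq_intCast] at a1 a2 a3
    push_cast
    rw [a1, a2, a3]
  rw [← h1, ZMod.intCast_zmod_eq_zero_iff_dvd]
  exact hd

theorem mem3_seven {l : ℤ} (hv : (l : ZMod 7) = 1) :
    ¬ ((7 : ℤ) ∣ (mem3 l).Δ) ∧ numPts (mem3 l) 7 = 10 := by
  constructor
  · exact good_mem3 (p := 7) hv (by decide)
  · rw [numPts_mem3 hv, Nat.card_eq_fintype_card]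
    decide

theorem mem3_eleven {l : ℤ} (hv : (l : ZMod 11) = 1) :
    ¬ ((11 : ℤ) ∣ (mem3 l).Δ) ∧ numPts (mem3 l) 11 = 6 := by
  constructor
  · exact good_mem3 (p := 11) hv (by decide)
  · rw [numPts_mem3 hv, Nat.card_eq_fintype_card]
    decide

theorem exists_mem3 (B : ℚ) : ∃ l : ℤ, 0 < l ∧
    B < ((mem3 l).c₄ : ℚ) ^ 3 / ((mem3 l).Δ : ℚ) ∧ ¬ ((7 : ℤ) ∣ (mem3 l).Δ) ∧
    numPts (mem3 l) 7 = 10 ∧ ¬ ((11 : ℤ) ∣ (mem3 l).Δ) ∧ numPts (mem3 l) 11 = 6 := by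
  obtain ⟨n, hn⟩ := exists_nat_gt B
  set l : ℤ := 77 * (n : ℕ) + 1 with hl
  have h7 : (l : ZMod 7) = 1 := by
    have : l = 1 + 7 * (11 * (n : ℕ)) := by rw [hl]; ring
    rw [this]; push_cast
    have h0 : (7 : ZMod 7) = 0 := by decide
    rw [h0]; ring
  have h11 : (l : ZMod 11) = 1 := by
    have : l = 1 + 11 * (7 * (n : ℕ)) := by rw [hl]; ring
    rw [this]; push_cast
    have h0 : (11 : ZMod 11) = 0 := by decide
    rw [h0]; ring
  have hlpos : 0 < l := by omega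
  have hB : B < l := by
    have h1 : (0 : ℚ) ≤ (n : ℚ) := by positivity
    rw [hl]
    push_cast
    linarith
  exact ⟨l, hlpos, j_mem3 hlpos hB, (mem3_seven h7).1, (mem3_seven h7).2, (mem3_eleven h11).1,
    (mem3_eleven h11).2⟩

end Pool.Agent.Helper95.KU
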