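import Pool.Agent.Helper95.KU.FiveGlobal
import Pool.Agent.Helper28.Koblitz.TwistSum

set_option autoImplicit false

/-!
# An infinite family: the number of points is even or divisible by five
-/

namespace Pool.Agent.Helper95.KU

open WeierstrassCurve Pool.Agent.Helper28.Koblitz Filter

theorem quadTwist_c₄ (E : WeierstrassCurve ℤ) (D : ℤ) :
    (quadTwist E D).c₄ = 6 ^ 4 * E.c₄ * D ^ 2 := by
  unfold quadTwist
  simp only [WeierstrassCurve.c₄, WeierstrassCurve.b₂, WeierstrassCurve.b₄]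
  ring

theorem quadTwist_c₆ (E : WeierstrassCurve ℤ) (D : ℤ) :
    (quadTwist E D).c₆ = 6 ^ 6 * E.c₆ * D ^ 3 := by
  unfold quadTwist
  simp only [WeierstrassCurve.c₆, WeierstrassCurve.b₂, WeierstrassCurve.b₄,
    WeierstrassCurve.b₆, WeierstrassCurve.c₄]
  ring

theorem quadTwist_Δ (E : WeierstrassCurve ℤ) (D : ℤ) :
    (quadTwist E D).Δ = 6 ^ 12 * E.Δ * D ^ 6 := by
  have h := (quadTwist E D).c_relation
  rw [quadTwist_c₄, quadTwist_c₆] at h
  have h2 := E.c_relation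
  have h3 : (1728 : ℤ) * (quadTwist E D).Δ = 1728 * (6 ^ 12 * E.Δ * D ^ 6) := by
    linear_combination h - 6 ^ 12 * D ^ 6 * h2
  exact mul_left_cancel₀ (by norm_num) h3

theorem j_quadTwist (E : WeierstrassCurve ℤ) {D : ℤ} (hD : D ≠ 0) :
    ((quadTwist E D).c₄ : ℚ) ^ 3 / ((quadTwist E D).Δ : ℚ) = (E.c₄ : ℚ) ^ 3 / (E.Δ : ℚ) := by
  rw [quadTwist_c₄, quadTwist_Δ]
  have hD' : (D : ℚ) ≠ 0 := by exact_mod_cast hD
  have h1 : (((6 ^ 4 * E.c₄ * D ^ 2 : ℤ)) : ℚ) ^ 3 =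
      (6 ^ 12 * (D : ℚ) ^ 6) * (E.c₄ : ℚ) ^ 3 := by push_cast; ring
  have h2 : (((6 ^ 12 * E.Δ * D ^ 6 : ℤ)) : ℚ) = (6 ^ 12 * (D : ℚ) ^ 6) * (E.Δ : ℚ) := by
    push_cast; ring
  rw [h1, h2, mul_div_mul_left]
  exact mul_ne_zero (by norm_num) (pow_ne_zero 6 hD')

/-- The number of points of a twist whose good primes are given by a residue. -/
theorem numPts_quadTwist_short (E : WeierstrassCurve ℤ) {D : ℤ} {p : ℕ} {a b d : ZMod p}
    (ha : (E.c₄ : ZMod p) = a) (hb : (E.c₆ : ZMod p) = b) (hd : (D : ZMod p) = d) :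
    numPts (quadTwist E D) p = Nat.card {q : ZMod p × ZMod p //
      q.2 ^ 2 = q.1 ^ 3 + (-27 * a * d ^ 2) * q.1 + (-54 * b * d ^ 3)} + 1 := by
  unfold numPts
  have hs : ∀ q : ZMod p × ZMod p,
      ((quadTwist E D).map (Int.castRingHom (ZMod p))).toAffine.Equation q.1 q.2 ↔
      q.2 ^ 2 = q.1 ^ 3 + (-27 * a * d ^ 2) * q.1 + (-54 * b * d ^ 3) := by
    intro q
    rw [quadTwist_equation_iff, ha, hb, hd]
  rw [Nat.card_congr (Equiv.subtypeEquivRight hs)]

section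

variable {R S : Type*} [CommRing R] [CommRing S]

/-- The invariants of the Tate curve with a point of order five. -/
def vC4 (b : R) : R := b ^ 4 - 12 * b ^ 3 + 14 * b ^ 2 + 12 * b + 1
def vC6 (b : R) : R := -((b ^ 2 + 1) * (b ^ 4 - 18 * b ^ 3 + 74 * b ^ 2 + 18 * b + 1))
def vD (b : R) : R := b ^ 5 * (b ^ 2 - 11 * b - 1)

theorem map_vC4 (f : R →+* S) (b : R) : f (vC4 b) = vC4 (f b) := by simp [vC4, map_ofNat]
theorem map_vC6 (f : R →+* S) (b : R) : f (vC6 b) = vC6 (f b) := by simp [vC6, map_ofNat]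
theorem map_vD (f : R →+* S) (b : R) : f (vD b) = vD (f b) := by simp [vD, map_ofNat]

end

/-- The Tate curve with a point of order five. -/
def tate5 (b : ℤ) : WeierstrassCurve ℤ := ⟨1 - b, -b, -b, 0, 0⟩

theorem tate5_c₄ (b : ℤ) : (tate5 b).c₄ = vC4 b := by
  simp only [WeierstrassCurve.c₄, WeierstrassCurve.b₂, WeierstrassCurve.b₄, tate5, vC4]; ring

theorem tate5_c₆ (b : ℤ) : (tate5 b).c₆ = vC6 b := by
  simp only [WeierstrassCurve.c₆, WeierstrassCurve.b₂, WeierstrassCurve.b₄,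
    WeierstrassCurve.b₆, tate5, vC6]; ring

theorem tate5_Δ (b : ℤ) : (tate5 b).Δ = vD b := by
  simp only [WeierstrassCurve.Δ, WeierstrassCurve.b₂, WeierstrassCurve.b₄,
    WeierstrassCurve.b₆, WeierstrassCurve.b₈, tate5, vD]; ring

/-- The member of the family. -/
def memT (b : ℤ) : WeierstrassCurve ℤ := quadTwist (tate5 b) (vD b)

section

variable {b : ℤ} (hb : 24 ≤ b)

include hb

theorem vD_pos : 0 < vD b := by
  have h1 : 0 < b ^ 2 - 11 * b - 1 := by nlinarith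
  have h2 : 0 < b ^ 5 := by positivity
  exact mul_pos h2 h1

theorem vC4_pos : 0 < vC4 b := by
  have h1 : 0 < b ^ 3 * (b - 12) := mul_pos (by positivity) (by omega)
  have h2 : 0 < b ^ 2 := by positivity
  have : vC4 b = b ^ 3 * (b - 12) + 14 * b ^ 2 + 12 * b + 1 := by unfold vC4; ring
  rw [this]
  linarith

theorem vC6_neg : vC6 b < 0 := by
  have h1 : 0 < b ^ 2 * ((b - 9) ^ 2 - 7) := by
    apply mul_pos (by positivity)
    nlinarith
  have h2 : 0 < b ^ 4 - 18 * b ^ 3 + 74 * b ^ 2 + 18 * b + 1 := by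
    have : b ^ 4 - 18 * b ^ 3 + 74 * b ^ 2 + 18 * b + 1 =
      b ^ 2 * ((b - 9) ^ 2 - 7) + 18 * b + 1 := by ring
    rw [this]; linarith
  have h3 : 0 < b ^ 2 + 1 := by positivity
  have := mul_pos h3 h2
  unfold vC6
  linarith

theorem memT_c₄_ne_zero : (memT b).c₄ ≠ 0 := by
  unfold memT
  rw [quadTwist_c₄, tate5_c₄]
  exact mul_ne_zero (mul_ne_zero (by norm_num) (vC4_pos hb).ne') (pow_ne_zero 2 (vD_pos hb).ne')

theorem memT_c₆_ne_zero : (memT b).c₆ ≠ 0 := by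
  unfold memT
  rw [quadTwist_c₆, tate5_c₆]
  exact mul_ne_zero (mul_ne_zero (by norm_num) (vC6_neg hb).ne) (pow_ne_zero 3 (vD_pos hb).ne')

omit hb in
theorem memT_Δ : (memT b).Δ = 6 ^ 12 * vD b ^ 7 := by
  unfold memT
  rw [quadTwist_Δ, tate5_Δ]; ring

theorem memT_Δ_ne_zero : (memT b).Δ ≠ 0 := by
  rw [memT_Δ]
  exact mul_ne_zero (by norm_num) (pow_ne_zero 7 (vD_pos hb).ne')

theorem j_memT : (b : ℚ) ≤ ((memT b).c₄ : ℚ) ^ 3 / ((memT b).Δ : ℚ) := by
  unfold memT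
  rw [j_quadTwist _ (vD_pos hb).ne', tate5_c₄, tate5_Δ]
  obtain ⟨x, hx⟩ : ∃ x : ℚ, x = b := ⟨_, rfl⟩
  have hx24 : 24 ≤ x := by rw [hx]; exact_mod_cast hb
  have e4 : ((vC4 b : ℤ) : ℚ) = vC4 x := by
    have := map_vC4 (Int.castRingHom ℚ) b
    rw [hx]
    simpa using this
  have eD : ((vD b : ℤ) : ℚ) = vD x := by
    have := map_vD (Int.castRingHom ℚ) b
    rw [hx]
    simpa using this
  rw [e4, eD, ← hx]
  have hD : 0 < vD x := by
    have h1 : 0 < x ^ 2 - 11 * x - 1 := by nlinarith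
    have h2 : 0 < x ^ 5 := by positivity
    exact mul_pos h2 h1
  rw [le_div_iff₀ hD]
  have h1 : x ^ 4 / 2 ≤ vC4 x := by
    have h2 : 0 ≤ x ^ 3 * (x - 24) := mul_nonneg (by positivity) (by linarith)
    have h3 : 0 ≤ x ^ 2 := by positivity
    unfold vC4
    nlinarith
  have h2 : vD x ≤ x ^ 7 := by
    have h3 : 0 ≤ x ^ 5 * (11 * x + 1) := by positivity
    unfold vD
    nlinarith
  have h3 : (x ^ 4 / 2) ^ 3 ≤ vC4 x ^ 3 := pow_le_pow_left₀ (by positivity) h1 3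
  have h4 : x * vD x ≤ x * x ^ 7 := mul_le_mul_of_nonneg_left h2 (by linarith)
  have h5 : x * x ^ 7 ≤ (x ^ 4 / 2) ^ 3 := by
    have h6 : (x ^ 4 / 2) ^ 3 = x ^ 8 * (x ^ 4 / 8) := by ring
    have h7 : x * x ^ 7 = x ^ 8 * 1 := by ring
    rw [h6, h7]
    apply mul_le_mul_of_nonneg_left _ (by positivity)
    have h8 : (24 : ℚ) ^ 4 ≤ x ^ 4 := pow_le_pow_left₀ (by norm_num) hx24 4
    linarith
  linarith

/-- The point of order five. -/
theorem tate5_point : ∃ P : (overQ (tate5 b)).toAffine.Point, addOrderOf P = 5 := by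
  have : Fact (Nat.Prime 5) := ⟨Nat.prime_five⟩
  obtain ⟨x, hx⟩ : ∃ x : ℚ, x = b := ⟨_, rfl⟩
  have hx24 : 24 ≤ x := by rw [hx]; exact_mod_cast hb
  have hW : (overQ (tate5 b)) = ⟨1 - x, -x, -x, 0, 0⟩ := by
    ext <;> simp [tate5, hx]
  rw [hW]
  obtain ⟨W, hW'⟩ : ∃ W : WeierstrassCurve ℚ, W = ⟨1 - x, -x, -x, 0, 0⟩ := ⟨_, rfl⟩
  have hΔ : W.Δ ≠ 0 := by
    have : W.Δ = x ^ 5 * (x ^ 2 - 11 * x - 1) := by
      rw [hW']
      simp only [WeierstrassCurve.Δ, WeierstrassCurve.b₂, WeierstrassCurve.b₄,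
        WeierstrassCurve.b₆, WeierstrassCurve.b₈]
      ring
    rw [this]
    have h1 : 0 < x ^ 2 - 11 * x - 1 := by nlinarith
    have h2 : 0 < x ^ 5 := by positivity
    exact (mul_pos h2 h1).ne'
  rw [← hW']
  have q1 : W.toAffine.Equation 0 0 := by
    rw [WeierstrassCurve.Affine.equation_iff, hW']; ring
  have q2 : W.toAffine.Equation x (x ^ 2) := by
    rw [WeierstrassCurve.Affine.equation_iff, hW']; ring
  have q3 : W.toAffine.Equation 0 x := by
    rw [WeierstrassCurve.Affine.equation_iff, hW']; ring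
  have n1 := (WeierstrassCurve.Affine.equation_iff_nonsingular_of_Δ_ne_zero hΔ).mp q1
  have n2 := (WeierstrassCurve.Affine.equation_iff_nonsingular_of_Δ_ne_zero hΔ).mp q2
  have n3 := (WeierstrassCurve.Affine.equation_iff_nonsingular_of_Δ_ne_zero hΔ).mp q3
  have hdbl : Affine.Point.some _ _ n1 + Affine.Point.some _ _ n1 =
      Affine.Point.some _ _ n2 := by
    refine add_self_eq (l := 0) n1 n2 ?_ ?_ ?_ ?_
    · rw [hW']
      simp only [WeierstrassCurve.Affine.negY]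
      intro h
      linarith
    · rw [hW']
      simp only [WeierstrassCurve.Affine.negY]
      ring
    · rw [hW']
      simp only [WeierstrassCurve.Affine.addX]
      ring
    · rw [hW']
      simp only [WeierstrassCurve.Affine.addY, WeierstrassCurve.Affine.negAddY,
        WeierstrassCurve.Affine.addX, WeierstrassCurve.Affine.negY]
      ring
  have hdbl2 : Affine.Point.some _ _ n2 + Affine.Point.some _ _ n2 =
      Affine.Point.some _ _ n3 := by
    refine add_self_eq (l := x) n2 n3 ?_ ?_ ?_ ?_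
    · rw [hW']
      simp only [WeierstrassCurve.Affine.negY]
      intro h
      have h1 : x ^ 2 = 0 := by linear_combination h
      have h2 : 0 < x ^ 2 := by positivity
      exact h2.ne' h1
    · rw [hW']
      simp only [WeierstrassCurve.Affine.negY]
      ring
    · rw [hW']
      simp only [WeierstrassCurve.Affine.addX]
      ring
    · rw [hW']
      simp only [WeierstrassCurve.Affine.addY, WeierstrassCurve.Affine.negAddY,
        WeierstrassCurve.Affine.addX, WeierstrassCurve.Affine.negY]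
      ring
  have hneg : Affine.Point.some _ _ n3 = - Affine.Point.some _ _ n1 := by
    rw [Affine.Point.neg_some, Affine.Point.some.injEq]
    refine ⟨rfl, ?_⟩
    rw [hW']
    simp only [WeierstrassCurve.Affine.negY]
    ring
  refine ⟨Affine.Point.some _ _ n1, addOrderOf_eq_prime ?_ ?_⟩
  · have h5 : (5 : ℕ) • Affine.Point.some _ _ n1 =
        ((Affine.Point.some _ _ n1 + Affine.Point.some _ _ n1) +
          (Affine.Point.some _ _ n1 + Affine.Point.some _ _ n1)) + Affine.Point.some _ _ n1 := by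
      rw [succ_nsmul, show (4 : ℕ) = 2 + 2 from rfl, add_nsmul, two_nsmul]
    rw [h5, hdbl, hdbl2, hneg, neg_add_cancel]
  · exact Affine.Point.some_ne_zero _

theorem finite_memT :
    {p : ℕ | p.Prime ∧ Odd (numPts (memT b) p) ∧ ¬ 5 ∣ numPts (memT b) p}.Finite := by
  obtain ⟨P, hP⟩ := tate5_point hb
  have hΔ0 : (tate5 b).Δ ≠ 0 := by rw [tate5_Δ]; exact (vD_pos hb).ne'
  have h := eventually_dvd_numPts (tate5 b) hΔ0 P 5 (by norm_num) hP
  rw [Filter.eventually_cofinite] at h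
  refine ((h.union (finite_dvd hΔ0)).union (Set.finite_Iic 3)).subset ?_
  rintro p ⟨hp, hodd, h5⟩
  by_contra hcon
  rw [Set.mem_union, Set.mem_union, not_or, not_or] at hcon
  obtain ⟨⟨c1, c2⟩, c3⟩ := hcon
  rw [Set.mem_Iic, not_le] at c3
  have : Fact p.Prime := ⟨hp⟩
  apply c1
  intro hcc
  have h5' := hcc hp
  have hD0 : ((vD b : ℤ) : ZMod p) ≠ 0 := by
    rw [Ne, ZMod.intCast_zmod_eq_zero_iff_dvd, ← tate5_Δ]
    exact c2
  by_cases hsq : IsSquare ((vD b : ℤ) : ZMod p)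
  · have h1 : numPts (memT b) p = numPts (tate5 b) p :=
      numPts_quadTwist_of_isSquare (tate5 b) (by omega) (by omega) hD0 hsq
    rw [h1] at h5
    exact h5 h5'
  · have hadd : numPts (memT b) p + numPts (tate5 b) p = 2 * p + 2 :=
      numPts_quadTwist_add (tate5 b) (by omega) (by omega) hsq
    have hodd2 : Odd (numPts (tate5 b) p) := by
      rw [Nat.odd_iff] at hodd ⊢
      omega
    apply hsq
    have := isSquare_of_odd_numPts (tate5 b) (by omega) (by omega) c2 hodd2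
    rwa [tate5_Δ] at this

theorem koblitzZero_memT (t : ℕ) (ht : Odd t) (h5 : ¬ 5 ∣ t) : KoblitzZero (memT b) t := by
  apply koblitz_of_finite (memT b) (memT_c₄_ne_zero hb) (memT_c₆_ne_zero hb) t 10 (by norm_num)
  refine (finite_memT hb).subset ?_
  rintro p ⟨hp, hgood, u, hu, hN⟩
  have hu' : Nat.Coprime u.val 10 := by
    have := (ZMod.isUnit_iff_coprime u.val 10).mp (by rwa [ZMod.natCast_zmod_val])
    exact this
  have hmod : numPts (memT b) p ≡ t * u.val [MOD 10] := by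
    rw [← ZMod.natCast_eq_natCast_iff, hN]
    push_cast
    rw [ZMod.natCast_zmod_val]
  refine ⟨hp, ?_, ?_⟩
  · rw [← Nat.not_even_iff_odd, even_iff_two_dvd]
    intro h2
    have h3 : numPts (memT b) p ≡ t * u.val [MOD 2] := hmod.of_dvd (by norm_num)
    have h4 : 2 ∣ t * u.val := (h3.dvd_iff (dvd_refl 2)).mp h2
    have h6 : Nat.Coprime 2 u.val := (Nat.Coprime.coprime_dvd_right (by norm_num) hu').symm
    have h7 : 2 ∣ t := h6.dvd_of_dvd_mul_right h4
    exact (Nat.not_even_iff_odd.mpr ht) (even_iff_two_dvd.mpr h7)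
  · intro h2
    have h3 : numPts (memT b) p ≡ t * u.val [MOD 5] := hmod.of_dvd (by norm_num)
    have h4 : 5 ∣ t * u.val := (h3.dvd_iff (dvd_refl 5)).mp h2
    have h6 : Nat.Coprime 5 u.val := (Nat.Coprime.coprime_dvd_right (by norm_num) hu').symm
    exact h5 (h6.dvd_of_dvd_mul_right h4)

end

theorem memT_cast {b : ℤ} {p : ℕ} {r : ZMod p} (hv : (b : ZMod p) = r) :
    numPts (memT b) p = Nat.card {q : ZMod p × ZMod p //
      q.2 ^ 2 = q.1 ^ 3 + (-27 * vC4 r * vD r ^ 2) * q.1 + (-54 * vC6 r * vD r ^ 3)} + 1 := by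
  have a1 := map_vC4 (Int.castRingHom (ZMod p)) b
  have a2 := map_vC6 (Int.castRingHom (ZMod p)) b
  have a3 := map_vD (Int.castRingHom (ZMod p)) b
  simp only [eq_intCast] at a1 a2 a3
  rw [hv] at a1 a2 a3
  exact numPts_quadTwist_short (tate5 b) (by rw [tate5_c₄]; exact a1) (by rw [tate5_c₆]; exact a2) a3

theorem memT_good {b : ℤ} {p : ℕ} {r : ZMod p} (hv : (b : ZMod p) = r)
    (h0 : (6 ^ 12 * vD r ^ 7 : ZMod p) ≠ 0) : ¬ ((p : ℤ) ∣ (memT b).Δ) := by
  intro hd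
  apply h0
  have a3 := map_vD (Int.castRingHom (ZMod p)) b
  simp only [eq_intCast] at a3
  rw [hv] at a3
  rw [← a3]
  rw [memT_Δ, ← ZMod.intCast_zmod_eq_zero_iff_dvd] at hd
  exact_mod_cast hd

theorem exists_memT (B : ℚ) : ∃ b : ℤ, 24 ≤ b ∧
    B < ((memT b).c₄ : ℚ) ^ 3 / ((memT b).Δ : ℚ) ∧ ¬ ((7 : ℤ) ∣ (memT b).Δ) ∧
    numPts (memT b) 7 = 5 ∧ ¬ ((11 : ℤ) ∣ (memT b).Δ) ∧ numPts (memT b) 11 = 14 := by
  obtain ⟨n, hn⟩ := exists_nat_gt B
  set b : ℤ := 77 * (n + 1 : ℕ) + 2 with hb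
  have h7 : (b : ZMod 7) = 2 := by
    have : b = 2 + 7 * (11 * (n + 1 : ℕ)) := by rw [hb]; ring
    rw [this]; push_cast
    have h0 : (7 : ZMod 7) = 0 := by decide
    rw [h0]; ring
  have h11 : (b : ZMod 11) = 2 := by
    have : b = 2 + 11 * (7 * (n + 1 : ℕ)) := by rw [hb]; ring
    rw [this]; push_cast
    have h0 : (11 : ZMod 11) = 0 := by decide
    rw [h0]; ring
  have hb24 : 24 ≤ b := by omega
  have hB : B < b := by
    have h1 : (0 : ℚ) ≤ (n : ℚ) := by positivity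
    rw [hb]
    push_cast
    linarith
  refine ⟨b, hb24, lt_of_lt_of_le hB (j_memT hb24), memT_good (p := 7) h7 (by decide), ?_,
    memT_good (p := 11) h11 (by decide), ?_⟩
  · rw [memT_cast h7, Nat.card_eq_fintype_card]
    decide
  · rw [memT_cast h11, Nat.card_eq_fintype_card]
    decide

end Pool.Agent.Helper95.KU
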