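import Pool.Agent.Helper95.KU.FiveGlobal

set_option autoImplicit false

/-!
# Infinitely many members of the family with exceptional image modulo five
-/

namespace Pool.Agent.Helper95.KU

open WeierstrassCurve Pool.Agent.Helper28.Koblitz Filter

section

variable {R S : Type*} [CommRing R] [CommRing S]

def mn (w : R) : R := (w - 5) * (w ^ 2 + 10 * w + 5)
def mm (w : R) : R := 10 * (w ^ 2 - 5)
def mT (w : R) : R := 5 * mn w ^ 2 + 3 * mm w ^ 2
def mA (w : R) : R := mT w ^ 2 + 5 * mT w * mm w ^ 2 + 40 * mm w ^ 4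
def mB (w : R) : R := mT w ^ 2 + 4 * mT w * mm w ^ 2 + 24 * mm w ^ 4
def mC4 (w : R) : R := 5 * mA w * mT w
def mC6 (w : R) : R := -25 * mA w * mn w * mB w

theorem map_mn (f : R →+* S) (v : R) : f (mn v) = mn (f v) := by simp [mn, map_ofNat]
theorem map_mm (f : R →+* S) (v : R) : f (mm v) = mm (f v) := by simp [mm, map_ofNat]
theorem map_mT (f : R →+* S) (v : R) : f (mT v) = mT (f v) := by
  simp [mT, map_mn, map_mm, map_ofNat]
theorem map_mA (f : R →+* S) (v : R) : f (mA v) = mA (f v) := by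
  simp [mA, map_mT, map_mm, map_ofNat]
theorem map_mB (f : R →+* S) (v : R) : f (mB v) = mB (f v) := by
  simp [mB, map_mT, map_mm, map_ofNat]
theorem map_mC4 (f : R →+* S) (v : R) : f (mC4 v) = mC4 (f v) := by
  simp [mC4, map_mA, map_mT, map_ofNat]
theorem map_mC6 (f : R →+* S) (v : R) : f (mC6 v) = mC6 (f v) := by
  simp [mC6, map_mA, map_mn, map_mB, map_ofNat]

theorem mdisc (w : R) : mC4 w ^ 3 - mC6 w ^ 2 = 1728 * (125 * mA w ^ 2 * mm w ^ 10) := by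
  obtain ⟨n, hn⟩ : ∃ n, n = mn w := ⟨_, rfl⟩
  obtain ⟨m, hm⟩ : ∃ m, m = mm w := ⟨_, rfl⟩
  obtain ⟨T, hT⟩ : ∃ T, T = mT w := ⟨_, rfl⟩
  have h1 : T = 5 * n ^ 2 + 3 * m ^ 2 := by rw [hT, hn, hm]; rfl
  have h2 : mA w = T ^ 2 + 5 * T * m ^ 2 + 40 * m ^ 4 := by rw [hT, hm]; rfl
  have h3 : mB w = T ^ 2 + 4 * T * m ^ 2 + 24 * m ^ 4 := by rw [hT, hm]; rfl
  have h4 : mC4 w = 5 * mA w * T := by rw [hT]; rfl
  have h5 : mC6 w = -25 * mA w * n * mB w := by rw [hn]; rfl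
  have key : mA w * T ^ 3 - 5 * n ^ 2 * mB w ^ 2 = 1728 * m ^ 10 := by
    rw [h2, h3, h1]; ring
  rw [← hm, h4, h5]
  linear_combination (125 * mA w ^ 2) * key

end

/-- The integral member of the family with the integral parameter `w`. -/
def mem5 (w : ℤ) : WeierstrassCurve ℤ := ⟨0, 0, 0, -27 * mC4 w, -54 * mC6 w⟩

theorem mem5_c₄ (w : ℤ) : (mem5 w).c₄ = 6 ^ 4 * mC4 w := by
  simp only [WeierstrassCurve.c₄, WeierstrassCurve.b₂, WeierstrassCurve.b₄, mem5]; ring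

theorem mem5_c₆ (w : ℤ) : (mem5 w).c₆ = 6 ^ 6 * mC6 w := by
  simp only [WeierstrassCurve.c₆, WeierstrassCurve.b₂, WeierstrassCurve.b₄,
    WeierstrassCurve.b₆, mem5]; ring

theorem mem5_Δ (w : ℤ) : (mem5 w).Δ = 6 ^ 12 * (125 * mA w ^ 2 * mm w ^ 10) := by
  have h := (mem5 w).c_relation
  rw [mem5_c₄, mem5_c₆] at h
  have h2 := mdisc w
  have h3 : (1728 : ℤ) * (mem5 w).Δ = 1728 * (6 ^ 12 * (125 * mA w ^ 2 * mm w ^ 10)) := by
    linear_combination h + 6 ^ 12 * h2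
  exact mul_left_cancel₀ (by norm_num) h3

theorem mem5_member {w : ℤ} (hw : w ≠ 5) : MemberFive (mem5 w) (w : ℚ) := by
  have hm0 : (mm (w : ℚ)) ≠ 0 := by
    unfold mm
    refine mul_ne_zero (by norm_num) ?_
    intro h
    exact sq_ne_five (w : ℚ) (by linear_combination h)
  obtain ⟨s, hs⟩ : ∃ s, s * mm (w : ℚ) = -mn (w : ℚ) := ⟨-mn (w : ℚ) / mm (w : ℚ),
    div_mul_cancel₀ _ hm0⟩
  have hT : mT (w : ℚ) = ft s * mm (w : ℚ) ^ 2 := by
    unfold mT ft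
    linear_combination (-5 * (s * mm (w : ℚ) - mn (w : ℚ))) * hs
  have hA : mA (w : ℚ) = fa s * mm (w : ℚ) ^ 4 := by
    unfold mA fa
    rw [hT]; ring
  have hB : mB (w : ℚ) = fb s * mm (w : ℚ) ^ 4 := by
    unfold mB fb
    rw [hT]; ring
  refine ⟨by exact_mod_cast hw, s, 36 * mm (w : ℚ) ^ 3, mul_ne_zero (by norm_num)
    (pow_ne_zero _ hm0), ?_, ?_, ?_⟩
  · have : 10 * ((w : ℚ) ^ 2 - 5) * s = s * mm (w : ℚ) := by unfold mm; ring
    rw [this, hs]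
    rfl
  · have h1 : ((mem5 w).c₄ : ℚ) = 6 ^ 4 * mC4 (w : ℚ) := by
      have h2 := map_mC4 (Int.castRingHom ℚ) w
      simp only [eq_intCast] at h2
      rw [mem5_c₄, ← h2]
      push_cast
      ring
    rw [h1]
    unfold mC4
    rw [hA, hT]
    ring
  · have h1 : ((mem5 w).c₆ : ℚ) = 6 ^ 6 * mC6 (w : ℚ) := by
      have h2 := map_mC6 (Int.castRingHom ℚ) w
      simp only [eq_intCast] at h2
      rw [mem5_c₆, ← h2]
      push_cast
      ring
    rw [h1]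
    unfold mC6
    have h3 : mn (w : ℚ) = -(s * mm (w : ℚ)) := by rw [hs]; ring
    rw [hA, hB, h3]
    ring

/-- The `j`-invariant of a member. -/
theorem j_member {E : WeierstrassCurve ℤ} {s D : ℚ} (hD : D ≠ 0)
    (h4 : (E.c₄ : ℚ) = 5 * fa s * ft s * D ^ 2)
    (h6 : (E.c₆ : ℚ) = 25 * fa s * s * fb s * D ^ 3) :
    (E.c₄ : ℚ) ^ 3 / (E.Δ : ℚ) = fa s * ft s ^ 3 := by
  have hΔ := MemberFive.Δ_eq h4 h6
  have h1 := (fa_pos s).ne'
  have hne : 125 * fa s ^ 2 * D ^ 6 ≠ 0 :=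
    mul_ne_zero (mul_ne_zero (by norm_num) (pow_ne_zero 2 h1)) (pow_ne_zero 6 hD)
  rw [hΔ, div_eq_iff hne, h4]
  ring

theorem j_large {w : ℤ} (hw : 25 ≤ w) {B : ℚ} (hB : B < w - 5) :
    B < ((mem5 w).c₄ : ℚ) ^ 3 / ((mem5 w).Δ : ℚ) := by
  obtain ⟨-, s, D, hD, hs, h4, h6⟩ := mem5_member (w := w) (by omega)
  rw [j_member hD h4 h6]
  have hw' : (25 : ℚ) ≤ w := by exact_mod_cast hw
  have hden : (0 : ℚ) < 10 * ((w : ℚ) ^ 2 - 5) := by nlinarith
  -- `(w - 5) / 10 ≤ - s`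
  have h1 : ((w : ℚ) - 5) / 10 ≤ -s := by
    have h2 : (10 * ((w : ℚ) ^ 2 - 5)) * (((w : ℚ) - 5) / 10) ≤ (10 * ((w : ℚ) ^ 2 - 5)) * (-s) := by
      have h3 : (10 * ((w : ℚ) ^ 2 - 5)) * (-s) =
          ((w : ℚ) - 5) * ((w : ℚ) ^ 2 + 10 * w + 5) := by linear_combination -hs
      rw [h3]
      have h4 : (10 * ((w : ℚ) ^ 2 - 5)) * (((w : ℚ) - 5) / 10) =
          ((w : ℚ) - 5) * ((w : ℚ) ^ 2 - 5) := by ring
      rw [h4]
      apply mul_le_mul_of_nonneg_left _ (by linarith)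
      linarith
    exact le_of_mul_le_mul_left h2 hden
  have h2 : (w : ℚ) - 5 ≤ ft s := by
    unfold ft
    have h3 : (((w : ℚ) - 5) / 10) ^ 2 ≤ (-s) ^ 2 :=
      pow_le_pow_left₀ (by linarith) h1 2
    nlinarith
  have h5 : 1 ≤ ft s := by linarith
  have h6 : 1 ≤ fa s := by unfold fa; nlinarith
  have h7 : ft s ≤ ft s ^ 3 := le_self_pow₀ h5 (by norm_num)
  have h8 : ft s ^ 3 ≤ fa s * ft s ^ 3 := le_mul_of_one_le_left (by positivity) h6
  linarith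

theorem good_of_cast {w : ℤ} {p : ℕ} {r : ZMod p} (hv : (w : ZMod p) = r)
    (h0 : (6 ^ 12 * (125 * mA r ^ 2 * mm r ^ 10) : ZMod p) ≠ 0) :
    ¬ ((p : ℤ) ∣ (mem5 w).Δ) := by
  intro hd
  apply h0
  have h1 : ((mem5 w).Δ : ZMod p) = 6 ^ 12 * (125 * mA r ^ 2 * mm r ^ 10) := by
    rw [mem5_Δ, ← hv]
    have a1 := map_mA (Int.castRingHom (ZMod p)) w
    have a2 := map_mm (Int.castRingHom (ZMod p)) w
    simp only [eq_intCast] at a1 a2
    push_cast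
    rw [a1, a2]
    norm_num
  rw [← h1, ZMod.intCast_zmod_eq_zero_iff_dvd]
  exact hd

theorem numPts_mem5 {w : ℤ} {p : ℕ} {r : ZMod p} (hv : (w : ZMod p) = r) :
    numPts (mem5 w) p = Nat.card {q : ZMod p × ZMod p //
      q.2 ^ 2 = q.1 ^ 3 + (-27 * mC4 r) * q.1 + (-54 * mC6 r)} + 1 := by
  unfold numPts
  have hs : ∀ q : ZMod p × ZMod p,
      ((mem5 w).map (Int.castRingHom (ZMod p))).toAffine.Equation q.1 q.2 ↔
      q.2 ^ 2 = q.1 ^ 3 + (-27 * mC4 r) * q.1 + (-54 * mC6 r) := by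
    intro q
    rw [WeierstrassCurve.Affine.equation_iff, ← hv]
    have a1 := map_mC4 (Int.castRingHom (ZMod p)) w
    have a2 := map_mC6 (Int.castRingHom (ZMod p)) w
    simp only [eq_intCast] at a1 a2
    rw [← a1, ← a2]
    simp [mem5, WeierstrassCurve.map]
  rw [Nat.card_congr (Equiv.subtypeEquivRight hs)]

/-- The reduction modulo `7`. -/
theorem mem5_seven {w : ℤ} (hv : (w : ZMod 7) = 0) :
    ¬ ((7 : ℤ) ∣ (mem5 w).Δ) ∧ numPts (mem5 w) 7 = 8 := by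
  constructor
  · exact good_of_cast (p := 7) hv (by decide)
  · rw [numPts_mem5 hv, Nat.card_eq_fintype_card]
    decide

/-- The reduction modulo `11`. -/
theorem mem5_eleven {w : ℤ} (hv : (w : ZMod 11) = 0) :
    ¬ ((11 : ℤ) ∣ (mem5 w).Δ) ∧ numPts (mem5 w) 11 = 13 := by
  constructor
  · exact good_of_cast (p := 11) hv (by decide)
  · rw [numPts_mem5 hv, Nat.card_eq_fintype_card]
    decide

/-- Infinitely many members, up to isomorphism over an algebraic closure, without torsion in the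
isogeny class. -/
theorem exists_memberFive (B : ℚ) : ∃ (E : WeierstrassCurve ℤ) (w : ℚ), MemberFive E w ∧
    B < (E.c₄ : ℚ) ^ 3 / (E.Δ : ℚ) ∧ ¬ ((7 : ℤ) ∣ E.Δ) ∧ numPts E 7 = 8 ∧
    ¬ ((11 : ℤ) ∣ E.Δ) ∧ numPts E 11 = 13 := by
  obtain ⟨n, hn⟩ := exists_nat_gt B
  set w : ℤ := 77 * (n + 1 : ℕ) with hw
  have h7 : (w : ZMod 7) = 0 := by
    have : w = 7 * (11 * (n + 1 : ℕ)) := by rw [hw]; ring
    rw [this]; push_cast
    have h0 : (7 : ZMod 7) = 0 := by decide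
    rw [h0]; ring
  have h11 : (w : ZMod 11) = 0 := by
    have : w = 11 * (7 * (n + 1 : ℕ)) := by rw [hw]; ring
    rw [this]; push_cast
    have h0 : (11 : ZMod 11) = 0 := by decide
    rw [h0]; ring
  have hw25 : 25 ≤ w := by omega
  have hB : B < w - 5 := by
    have h1 : (0 : ℚ) ≤ (n : ℚ) := by positivity
    rw [hw]
    push_cast
    linarith
  exact ⟨mem5 w, w, mem5_member (by omega), j_large hw25 hB, (mem5_seven h7).1,
    (mem5_seven h7).2, (mem5_eleven h11).1, (mem5_eleven h11).2⟩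

end Pool.Agent.Helper95.KU
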