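import Pool.Agent.Helper28.Koblitz.Defs

set_option autoImplicit false

/-!
# The refined Koblitz conjecture with vanishing constant
-/

namespace Pool.Agent.Helper95.KU

open WeierstrassCurve Pool.Agent.Helper28.Koblitz Filter

/-- The refined Koblitz conjecture for `(E, t)` with vanishing constant: there are only finitely
many primes `p ∤ Δ` such that `|E(𝔽_p)|/t` is a prime, `C_{E,t} = 0`, and the refined Koblitz
conjecture holds for `(E, t)`. -/
def KoblitzZero (E : WeierstrassCurve ℤ) (t : ℕ) : Prop :=
  {p : ℕ | p.Prime ∧ ¬ (((p : ℕ) : ℤ) ∣ E.Δ) ∧ t ∣ numPts E p ∧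
      Nat.Prime (numPts E p / t)}.Finite ∧ ConstantZero E t ∧ RefinedKoblitz E t

end Pool.Agent.Helper95.KU
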