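import Pool.Agent.Helper95.KU.FiveLocal
import Pool.Agent.Helper82.KZ.Family
import Pool.Agent.Helper95.KU.KZDef

set_option autoImplicit false

/-!
# The family with exceptional image modulo five: over the rational numbers
-/

namespace Pool.Agent.Helper95.KU

open WeierstrassCurve Pool.Agent.Helper28.Koblitz Filter

section

variable {R S : Type*} [CommRing R] [CommRing S]

theorem map_ft (f : R →+* S) (s : R) : f (ft s) = ft (f s) := by simp [ft, map_ofNat]
theorem map_fa (f : R →+* S) (s : R) : f (fa s) = fa (f s) := by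
  simp [fa, map_ft, map_ofNat]
theorem map_fb (f : R →+* S) (s : R) : f (fb s) = fb (f s) := by
  simp [fb, map_ft, map_ofNat]

end

theorem ft_pos (s : ℚ) : 0 < ft s := by unfold ft; positivity

theorem fa_pos (s : ℚ) : 0 < fa s := by
  have := ft_pos s
  unfold fa; positivity

theorem fb_pos (s : ℚ) : 0 < fb s := by
  have := ft_pos s
  unfold fb; positivity

theorem sq_ne_five (x : ℚ) : x ^ 2 ≠ 5 := by
  intro h
  have h1 : IsSquare ((5 : ℕ) : ℚ) := ⟨x, by rw [← sq, h]; norm_num⟩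
  rw [Rat.isSquare_natCast_iff] at h1
  obtain ⟨n, hn⟩ := h1
  have : n < 3 := by nlinarith
  interval_cases n <;> omega

/-- `E` belongs to the family with the parameter `w` (all quadratic twists of its members are
included): `c₄(E) = 5 a t D²`, `c₆(E) = 25 a s b D³`, where
`s = -(w - 5)(w² + 10 w + 5) / (10 (w² - 5))`, `t = 5 s² + 3`, `a = t² + 5 t + 40`,
`b = t² + 4 t + 24`, and `D ≠ 0` is rational. -/
def MemberFive (E : WeierstrassCurve ℤ) (w : ℚ) : Prop :=
  w ≠ 5 ∧ ∃ s D : ℚ, D ≠ 0 ∧ 10 * (w ^ 2 - 5) * s = -((w - 5) * (w ^ 2 + 10 * w + 5)) ∧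
    (E.c₄ : ℚ) = 5 * fa s * ft s * D ^ 2 ∧ (E.c₆ : ℚ) = 25 * fa s * s * fb s * D ^ 3

theorem s_ne_zero {w s : ℚ} (hw : w ≠ 5)
    (hs : 10 * (w ^ 2 - 5) * s = -((w - 5) * (w ^ 2 + 10 * w + 5))) : s ≠ 0 := by
  rintro rfl
  have h1 : (w - 5) * (w ^ 2 + 10 * w + 5) = 0 := by linear_combination hs
  rcases mul_eq_zero.mp h1 with h | h
  · exact hw (by linear_combination h)
  · exact sq_ne_five ((w + 5) / 2) (by linear_combination h / 4)

theorem MemberFive.c₄_ne_zero {E : WeierstrassCurve ℤ} {w : ℚ} (h : MemberFive E w) :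
    E.c₄ ≠ 0 := by
  obtain ⟨hw, s, D, hD, hs, h4, h6⟩ := h
  intro h
  rw [h, Int.cast_zero] at h4
  have h1 := fa_pos s
  have h2 := ft_pos s
  exact mul_ne_zero (mul_ne_zero (mul_ne_zero (by norm_num) h1.ne') h2.ne')
    (pow_ne_zero 2 hD) h4.symm

theorem MemberFive.c₆_ne_zero {E : WeierstrassCurve ℤ} {w : ℚ} (h : MemberFive E w) :
    E.c₆ ≠ 0 := by
  obtain ⟨hw, s, D, hD, hs, h4, h6⟩ := h
  intro h
  rw [h, Int.cast_zero] at h6
  have h1 := fa_pos s
  have h2 := fb_pos s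
  exact mul_ne_zero (mul_ne_zero (mul_ne_zero (mul_ne_zero (by norm_num) h1.ne')
    (s_ne_zero hw hs)) h2.ne') (pow_ne_zero 3 hD) h6.symm

theorem MemberFive.Δ_eq {E : WeierstrassCurve ℤ} {s D : ℚ}
    (h4 : (E.c₄ : ℚ) = 5 * fa s * ft s * D ^ 2)
    (h6 : (E.c₆ : ℚ) = 25 * fa s * s * fb s * D ^ 3) :
    (E.Δ : ℚ) = 125 * fa s ^ 2 * D ^ 6 := by
  have hrel : (1728 * E.Δ : ℤ) = E.c₄ ^ 3 - E.c₆ ^ 2 := E.c_relation
  have hrel' : (1728 * (E.Δ : ℚ)) = (E.c₄ : ℚ) ^ 3 - (E.c₆ : ℚ) ^ 2 := by exact_mod_cast hrel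
  rw [h4, h6] at hrel'
  have h := fj s
  have h5 : (1728 : ℚ) * (E.Δ : ℚ) = 1728 * (125 * fa s ^ 2 * D ^ 6) := by
    linear_combination hrel' + (125 * fa s ^ 2 * D ^ 6) * h
  exact mul_left_cancel₀ (by norm_num) h5

theorem MemberFive.Δ_ne_zero {E : WeierstrassCurve ℤ} {w : ℚ} (h : MemberFive E w) :
    E.Δ ≠ 0 := by
  obtain ⟨hw, s, D, hD, hs, h4, h6⟩ := h
  have h1 := MemberFive.Δ_eq h4 h6
  intro h
  rw [h, Int.cast_zero] at h1
  exact mul_ne_zero (mul_ne_zero (by norm_num) (pow_ne_zero 2 (fa_pos s).ne'))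
    (pow_ne_zero 6 hD) h1.symm

/-- For the members of the family, for almost all primes `p`: if `|E(𝔽_p)|` is divisible by five
then it is even. -/
theorem eventually_two_dvd {E : WeierstrassCurve ℤ} {w : ℚ} (h : MemberFive E w) :
    ∀ᶠ p : ℕ in cofinite, p.Prime → ¬ (((p : ℕ) : ℤ) ∣ E.Δ) → 5 ∣ numPts E p →
      2 ∣ numPts E p := by
  obtain ⟨hw, s, D, hD, hs, h4, h6⟩ := h
  have hbig : ∀ᶠ p : ℕ in cofinite, 5 < p := by
    rw [Filter.eventually_cofinite]
    refine (Set.finite_Iic 5).subset ?_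
    intro p hp
    simpa using hp
  have hw15 : w ^ 2 + 15 ≠ 0 := by positivity
  filter_upwards [hbig, eventually_mem_intRat w, eventually_mem_intRat s,
    eventually_mem_intRat D, eventually_num_ne_zero hw15, eventually_num_ne_zero hD,
    eventually_num_ne_zero (ft_pos s).ne', eventually_num_ne_zero (fa_pos s).ne',
    eventually_num_ne_zero (fb_pos s).ne'] with p hp5 iw is iD c1 c2 c3 c4 c5 hp hgood h5
  have : Fact p.Prime := ⟨hp⟩
  classical
  obtain ⟨w', rfl⟩ : ∃ w' : intRat p, (w' : ℚ) = w := ⟨⟨w, iw⟩, rfl⟩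
  obtain ⟨s', rfl⟩ : ∃ s' : intRat p, (s' : ℚ) = s := ⟨⟨s, is⟩, rfl⟩
  obtain ⟨D', rfl⟩ : ∃ D' : intRat p, (D' : ℚ) = D := ⟨⟨D, iD⟩, rfl⟩
  have e2 := two_ne_zero_zmod hp (by omega)
  have e3 := three_ne_zero_zmod hp (by omega)
  have e5 : (5 : ZMod p) ≠ 0 := by
    intro h0
    have h1 : ((5 : ℕ) : ZMod p) = 0 := by exact_mod_cast h0
    rw [ZMod.natCast_eq_zero_iff] at h1
    exact absurd (Nat.le_of_dvd (by norm_num) h1) (by omega)
  have d1 : redHom p w' ^ 2 + 15 ≠ 0 := by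
    have h1 : redHom p (w' ^ 2 + 15) = redHom p w' ^ 2 + 15 := by simp [map_ofNat]
    rw [← h1]
    apply redHom_ne_zero
    have : ((w' ^ 2 + 15 : intRat p) : ℚ) = (w' : ℚ) ^ 2 + 15 := by
      have := map_add (intRat p).subtype (w' ^ 2) 15
      simpa [map_ofNat] using this
    rw [this]; exact c1
  have d2 : redHom p D' ≠ 0 := redHom_ne_zero _ c2
  have d3 : ft (redHom p s') ≠ 0 := by
    rw [← map_ft]
    apply redHom_ne_zero
    have : ((ft s' : intRat p) : ℚ) = ft (s' : ℚ) := map_ft (intRat p).subtype s'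
    rw [this]; exact c3
  have d4 : fa (redHom p s') ≠ 0 := by
    rw [← map_fa]
    apply redHom_ne_zero
    have : ((fa s' : intRat p) : ℚ) = fa (s' : ℚ) := map_fa (intRat p).subtype s'
    rw [this]; exact c4
  have d5 : fb (redHom p s') ≠ 0 := by
    rw [← map_fb]
    apply redHom_ne_zero
    have : ((fb s' : intRat p) : ℚ) = fb (s' : ℚ) := map_fb (intRat p).subtype s'
    rw [this]; exact c5
  have g4 : (E.c₄ : ZMod p) = 5 * fa (redHom p s') * ft (redHom p s') * redHom p D' ^ 2 := by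
    have : ((E.c₄ : ℤ) : intRat p) = 5 * fa s' * ft s' * D' ^ 2 := by
      apply (intRat p).subtype_injective
      simp only [map_mul, map_pow, map_fa, map_ft, map_intCast, map_ofNat]
      exact h4
    have h1 := congrArg (redHom p) this
    simpa only [map_mul, map_pow, map_fa, map_ft, map_intCast, map_ofNat] using h1
  have g6 : (E.c₆ : ZMod p) =
      25 * fa (redHom p s') * redHom p s' * fb (redHom p s') * redHom p D' ^ 3 := by
    have : ((E.c₆ : ℤ) : intRat p) = 25 * fa s' * s' * fb s' * D' ^ 3 := by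
      apply (intRat p).subtype_injective
      simp only [map_mul, map_pow, map_fa, map_fb, map_intCast, map_ofNat]
      exact h6
    have h1 := congrArg (redHom p) this
    simpa only [map_mul, map_pow, map_fa, map_fb, map_intCast, map_ofNat] using h1
  have gs : 10 * (redHom p w' ^ 2 - 5) * redHom p s' =
      -((redHom p w' - 5) * (redHom p w' ^ 2 + 10 * redHom p w' + 5)) := by
    have : (10 * (w' ^ 2 - 5) * s' : intRat p) = -((w' - 5) * (w' ^ 2 + 10 * w' + 5)) := by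
      apply (intRat p).subtype_injective
      simp only [map_mul, map_pow, map_sub, map_add, map_neg, map_ofNat]
      exact hs
    have h1 := congrArg (redHom p) this
    simpa only [map_mul, map_pow, map_sub, map_add, map_neg, map_ofNat] using h1
  have hcard := numPts_eq_card E (by omega) (by omega) hgood
  have hΔ := shortW_Δ_ne_zero e2 (disc_ne_zero E (by omega) (by omega) hgood)
  rw [hcard] at h5 ⊢
  exact two_dvd_of_five_dvd e2 e3 e5 d1 gs d3 d4 d5 d2 g4 g6 hΔ h5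

theorem finite_odd {E : WeierstrassCurve ℤ} {w : ℚ} (h : MemberFive E w) :
    {p : ℕ | p.Prime ∧ 5 ∣ numPts E p ∧ ¬ 2 ∣ numPts E p}.Finite := by
  have hev := eventually_two_dvd h
  rw [Filter.eventually_cofinite] at hev
  refine (hev.union (finite_dvd h.Δ_ne_zero)).subset ?_
  rintro p ⟨hp, h5, h2⟩
  by_contra hcon
  rw [Set.mem_union, not_or] at hcon
  obtain ⟨c1, c2⟩ := hcon
  apply c1
  intro hcc
  exact h2 (hcc hp c2 h5)

/-- If `N = t u` modulo `10` with a unit `u`, `t` is odd and divisible by `5`, then `N` is odd and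
divisible by `5`. -/
theorem odd_five {t N : ℕ} (ht : Odd t) (h5 : 5 ∣ t) {u : ZMod 10}
    (hN : (N : ZMod 10) = (t : ZMod 10) * u) (hu : IsUnit u) : 5 ∣ N ∧ ¬ 2 ∣ N := by
  have hu' : Nat.Coprime u.val 10 := by
    have := (ZMod.isUnit_iff_coprime u.val 10).mp (by rwa [ZMod.natCast_zmod_val])
    exact this
  have hmod : N ≡ t * u.val [MOD 10] := by
    rw [← ZMod.natCast_eq_natCast_iff, hN]
    push_cast
    rw [ZMod.natCast_zmod_val]
  constructor
  · have h3 : N ≡ t * u.val [MOD 5] := hmod.of_dvd (by norm_num)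
    exact (h3.dvd_iff (dvd_refl 5)).mpr (h5.mul_right _)
  · intro h2
    have h3 : N ≡ t * u.val [MOD 2] := hmod.of_dvd (by norm_num)
    have h4 : 2 ∣ t * u.val := (h3.dvd_iff (dvd_refl 2)).mp h2
    have h6 : Nat.Coprime 2 u.val := (Nat.Coprime.coprime_dvd_right (by norm_num) hu').symm
    have h7 : 2 ∣ t := h6.dvd_of_dvd_mul_right h4
    exact (Nat.not_even_iff_odd.mpr ht) (even_iff_two_dvd.mpr h7)

theorem koblitzZero_five {E : WeierstrassCurve ℤ} {w : ℚ} (h : MemberFive E w)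
    (E' : WeierstrassCurve ℤ) (h4 : E'.c₄ ≠ 0) (h6 : E'.c₆ ≠ 0)
    (hiso : {p : ℕ | p.Prime ∧ numPts E' p ≠ numPts E p}.Finite) (t : ℕ) (ht : Odd t)
    (h5 : 5 ∣ t) : KoblitzZero E' t := by
  apply koblitz_of_finite E' h4 h6 t 10 (by norm_num)
  refine ((finite_odd h).union hiso).subset ?_
  rintro p ⟨hp, hgood, u, hu, hN⟩
  by_contra hcon
  rw [Set.mem_union, not_or] at hcon
  obtain ⟨c1, c2⟩ := hcon
  have heq : numPts E' p = numPts E p := by
    by_contra hne
    exact c2 ⟨hp, hne⟩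
  obtain ⟨a1, a2⟩ := odd_five ht h5 hN hu
  rw [heq] at a1 a2
  exact c1 ⟨hp, a1, a2⟩

end Pool.Agent.Helper95.KU
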