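import Pool.Agent.Helper28.Koblitz.NonsplitCore
import Pool.Agent.Helper95.KU.FiveGlobal

set_option autoImplicit false

/-!
# The normaliser of the nonsplit Cartan subgroup modulo three and the refined Koblitz conjecture

Let `E` be (isogenous to) an elliptic curve with `j`-invariant a cube `n³` (the image of the Galois
representation modulo 3 is contained in the normaliser of a nonsplit Cartan subgroup). If `3`
divides `|E(𝔽_p)|`, then `n² + 12 n + 144` is a square modulo `p`, and if moreover `-3` is a square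
modulo `p`, then `9` divides `|E(𝔽_p)|`. For `n = 12 + s²` this forces `Δ` to be a square modulo
`p`, so that `|E(𝔽_p)|` is never `6` modulo `12`; for `n = 12 - 3 s²`, the number `|E(𝔽_p)|` is
never an odd number with `3`-adic valuation one.
-/

namespace Pool.Agent.Helper95.KU.NonsplitThree

open Pool.Agent.Helper28.Koblitz Filter

theorem cast_relation {p : ℕ} [Fact p.Prime] {q : ℚ} (c Δ : ℤ) (h : (c : ℚ) ^ 3 = q ^ 3 * Δ)
    (hden : ((q.den : ℕ) : ZMod p) ≠ 0) :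
    (c : ZMod p) ^ 3 = ((q.num : ZMod p) / (q.den : ZMod p)) ^ 3 * (Δ : ZMod p) := by
  have hd : (q.den : ℚ) ≠ 0 := by exact_mod_cast q.den_nz
  have h1 : (c : ℚ) ^ 3 * (q.den : ℚ) ^ 3 = (q.num : ℚ) ^ 3 * Δ := by
    have hq : (q.num : ℚ) = q * q.den := by
      rw [Rat.mul_den_eq_num]
    rw [h, hq]; ring
  have h2 : c ^ 3 * (q.den : ℤ) ^ 3 = q.num ^ 3 * Δ := by exact_mod_cast h1
  have h3 := congrArg (Int.cast : ℤ → ZMod p) h2
  push_cast at h3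
  rw [div_pow, div_mul_eq_mul_div, eq_div_iff (pow_ne_zero 3 hden), h3]

theorem cast_param {p : ℕ} [Fact p.Prime] {n s : ℚ} (c : ℤ) (h : n = 12 + c * s ^ 2)
    (hden : ((n.den : ℕ) : ZMod p) ≠ 0) (hden' : ((s.den : ℕ) : ZMod p) ≠ 0) :
    (n.num : ZMod p) / (n.den : ZMod p) =
      12 + (c : ZMod p) * ((s.num : ZMod p) / (s.den : ZMod p)) ^ 2 := by
  have hd : (n.den : ℚ) ≠ 0 := by exact_mod_cast n.den_nz
  have hd' : (s.den : ℚ) ≠ 0 := by exact_mod_cast s.den_nz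
  have h1 : (n.num : ℚ) * (s.den : ℚ) ^ 2 =
      (n.den : ℚ) * (12 * (s.den : ℚ) ^ 2 + c * (s.num : ℚ) ^ 2) := by
    have hq : (n.num : ℚ) = n * n.den := by rw [Rat.mul_den_eq_num]
    have hq' : (s.num : ℚ) = s * s.den := by rw [Rat.mul_den_eq_num]
    rw [hq, hq']
    linear_combination ((n.den : ℚ) * (s.den : ℚ) ^ 2) * h
  have h2 : n.num * (s.den : ℤ) ^ 2 =
      (n.den : ℤ) * (12 * (s.den : ℤ) ^ 2 + c * s.num ^ 2) := by exact_mod_cast h1
  have h3 := congrArg (Int.cast : ℤ → ZMod p) h2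
  push_cast at h3
  have hdd : (s.den : ZMod p) ^ 2 ≠ 0 := pow_ne_zero 2 hden'
  have hR : 12 + (c : ZMod p) * ((s.num : ZMod p) / (s.den : ZMod p)) ^ 2 =
      (12 * (s.den : ZMod p) ^ 2 + c * (s.num : ZMod p) ^ 2) / (s.den : ZMod p) ^ 2 := by
    rw [div_pow, eq_div_iff hdd, add_mul, mul_assoc, div_mul_cancel₀ _ hdd]
  rw [hR, div_eq_div_iff hden hdd, h3]
  ring

/-- The exceptional primes. -/
theorem finite_exceptional (E E₁ : WeierstrassCurve ℤ) (h₁ : E₁.Δ ≠ 0)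
    (hi₁ : {p : ℕ | p.Prime ∧ numPts E₁ p ≠ numPts E p}.Finite)
    (n s : ℚ) (hn : n ≠ 0) (hs : s ≠ 0) (hj : (E₁.c₄ : ℚ) ^ 3 = n ^ 3 * E₁.Δ)
    (c : ℤ) (hc : c = 1 ∨ c = -3) (hns : n = 12 + c * s ^ 2) :
    {p : ℕ | p.Prime ∧ 3 ∣ numPts E p ∧ ((c = 1 ∧ numPts E p % 4 = 2) ∨
      (c = -3 ∧ Odd (numPts E p) ∧ ¬ 9 ∣ numPts E p))}.Finite := by
  -- `c₆(E₁) ≠ 0`
  have hrel := E₁.c_relation
  have hc0 : (c : ℚ) ≠ 0 := by
    rcases hc with rfl | rfl <;> norm_num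
  have hc6 : E₁.c₆ ≠ 0 := by
    intro h
    have h1 : (1728 : ℚ) * E₁.Δ = (E₁.c₄ : ℚ) ^ 3 - (E₁.c₆ : ℚ) ^ 2 := by exact_mod_cast hrel
    rw [hj, h] at h1
    have h2 : ((n : ℚ) ^ 3 - 12 ^ 3) * (E₁.Δ : ℚ) = 0 := by
      push_cast at h1; linear_combination -h1
    have hΔ : (E₁.Δ : ℚ) ≠ 0 := by exact_mod_cast h₁
    have h3 : (n : ℚ) ^ 3 - 12 ^ 3 = 0 := (mul_eq_zero.mp h2).resolve_right hΔ
    have h4 : (c * s ^ 2) * (n ^ 2 + 12 * n + 144) = 0 := by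
      rw [← h3]; rw [show (c : ℚ) * s ^ 2 = n - 12 by rw [hns]; ring]; ring
    have h5 : n ^ 2 + 12 * n + 144 ≠ 0 := by nlinarith [sq_nonneg (n + 6)]
    rcases mul_eq_zero.mp h4 with h | h
    · exact mul_ne_zero hc0 (pow_ne_zero 2 hs) h
    · exact h5 h
  have hden : (n.den : ℤ) ≠ 0 := by exact_mod_cast n.den_nz
  have hden' : (s.den : ℤ) ≠ 0 := by exact_mod_cast s.den_nz
  have hnum : n.num ≠ 0 := Rat.num_ne_zero.mpr hn
  have hnum' : s.num ≠ 0 := Rat.num_ne_zero.mpr hs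
  refine (((((((Set.finite_Iic 3).union hi₁).union (finite_dvd h₁)).union
    (finite_dvd hc6)).union (finite_dvd hden)).union (finite_dvd hden')).union
    ((finite_dvd hnum).union (finite_dvd hnum'))).subset ?_
  rintro p ⟨hp, h3N, hcase⟩
  by_contra hcon
  simp only [Set.mem_union, not_or] at hcon
  obtain ⟨⟨⟨⟨⟨⟨k1, k2⟩, k3⟩, k4⟩, k5⟩, k6⟩, k7, k8⟩ := hcon
  rw [Set.mem_Iic, not_le] at k1
  have : Fact p.Prime := ⟨hp⟩
  have heq : numPts E₁ p = numPts E p := by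
    by_contra h
    exact k2 ⟨hp, h⟩
  rw [← heq] at h3N hcase
  have z4 : (E₁.c₆ : ZMod p) ≠ 0 := by
    rw [Ne, ZMod.intCast_zmod_eq_zero_iff_dvd]; exact k4
  have z5 : ((n.den : ℕ) : ZMod p) ≠ 0 := by
    have : (((n.den : ℕ) : ℤ) : ZMod p) ≠ 0 := by
      rw [Ne, ZMod.intCast_zmod_eq_zero_iff_dvd]; exact k5
    simpa using this
  have z6 : ((s.den : ℕ) : ZMod p) ≠ 0 := by
    have : (((s.den : ℕ) : ℤ) : ZMod p) ≠ 0 := by
      rw [Ne, ZMod.intCast_zmod_eq_zero_iff_dvd]; exact k6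
    simpa using this
  have z7 : (n.num : ZMod p) ≠ 0 := by
    rw [Ne, ZMod.intCast_zmod_eq_zero_iff_dvd]; exact k7
  have z8 : (s.num : ZMod p) ≠ 0 := by
    rw [Ne, ZMod.intCast_zmod_eq_zero_iff_dvd]; exact k8
  have r1 := cast_relation (p := p) E₁.c₄ E₁.Δ hj z5
  have r2 := cast_param (p := p) c hns z5 z6
  set ν : ZMod p := (n.num : ZMod p) / (n.den : ZMod p) with hν
  set σ : ZMod p := (s.num : ZMod p) / (s.den : ZMod p) with hσ
  have hν0 : ν ≠ 0 := div_ne_zero z7 z5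
  have hσ0 : σ ≠ 0 := div_ne_zero z8 z6
  obtain ⟨⟨r, hr⟩, h9⟩ := nonsplit_three E₁ (by omega) (by omega) k3 hν0 r1 h3N
  have r3 : (1728 : ZMod p) * (E₁.Δ : ZMod p) = (E₁.c₄ : ZMod p) ^ 3 - (E₁.c₆ : ZMod p) ^ 2 := by
    have := congrArg (Int.cast : ℤ → ZMod p) hrel
    push_cast at this
    exact this
  have r4 : (E₁.c₆ : ZMod p) ^ 2 = (c : ZMod p) * (σ * r) ^ 2 * (E₁.Δ : ZMod p) := by
    have h1 : (E₁.c₆ : ZMod p) ^ 2 = (ν - 12) * (ν ^ 2 + 12 * ν + 144) * (E₁.Δ : ZMod p) := by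
      linear_combination r3 + r1
    rw [h1, hr, r2]; ring
  have hr0 : r ≠ 0 := by
    rintro rfl
    apply z4
    have : (E₁.c₆ : ZMod p) ^ 2 = 0 := by rw [r4]; ring
    exact pow_eq_zero_iff (two_ne_zero) |>.mp this
  have hσr : σ * r ≠ 0 := mul_ne_zero hσ0 hr0
  rcases hcase with ⟨rfl, h24⟩ | ⟨rfl, hodd, hn9⟩
  · obtain ⟨e, -, -, hnsq, -⟩ := exists_unique_root E₁ (by omega) (by omega) k3 h24
    apply hnsq
    refine ⟨(E₁.c₆ : ZMod p) / (σ * r), ?_⟩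
    rw [div_mul_div_comm, eq_div_iff (mul_ne_zero hσr hσr)]
    rw [Int.cast_one] at r4
    linear_combination -r4
  · apply hn9
    apply h9
    obtain ⟨d, hd⟩ := isSquare_of_odd_numPts E₁ (by omega) (by omega) k3 hodd
    have hd0 : d ≠ 0 := by
      rintro rfl
      apply z4
      have : (E₁.c₆ : ZMod p) ^ 2 = 0 := by rw [r4, hd]; ring
      exact pow_eq_zero_iff (two_ne_zero) |>.mp this
    have hσrd : σ * r * d ≠ 0 := mul_ne_zero hσr hd0
    refine ⟨(E₁.c₆ : ZMod p) / (σ * r * d), ?_⟩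
    rw [div_mul_div_comm, eq_div_iff (mul_ne_zero hσrd hσrd)]
    rw [hd] at r4
    push_cast at r4
    linear_combination -r4

/-- **The refined Koblitz conjecture for curves with nonsplit Cartan structure modulo three.**
Let `E` be an elliptic curve over `ℚ` given by an integral Weierstrass equation, with
`j(E) ≠ 0, 1728` (i.e. `c₄ c₆ ≠ 0`), isogenous to an elliptic curve `E₁` (that is: both have the
same number of points modulo almost all primes) whose `j`-invariant is a cube `n³`, `n ∈ ℚ`,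
`n ≠ 0`, and let `s ∈ ℚ`, `s ≠ 0`. Suppose that
* `n = 12 + s²` and `t ≡ 2 mod 4` is divisible by `3`, or that
* `n = 12 - 3s²` and `t` is odd and divisible by `3` but not by `9`.
Then there are only finitely many primes `p ∤ Δ` such that `|E(𝔽_p)|/t` is a prime, `C_{E,t} = 0`,
and the refined Koblitz conjecture holds for `(E, t)`. -/
theorem koblitzZero_nonsplit (E : WeierstrassCurve ℤ) (h4 : E.c₄ ≠ 0) (h6 : E.c₆ ≠ 0)
    (E₁ : WeierstrassCurve ℤ) (h₁ : E₁.Δ ≠ 0)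
    (hi₁ : {p : ℕ | p.Prime ∧ numPts E₁ p ≠ numPts E p}.Finite)
    (n s : ℚ) (hn : n ≠ 0) (hs : s ≠ 0) (hj : (E₁.c₄ : ℚ) ^ 3 = n ^ 3 * E₁.Δ)
    (t : ℕ) (ht : (n = 12 + s ^ 2 ∧ t % 4 = 2 ∧ 3 ∣ t) ∨
      (n = 12 - 3 * s ^ 2 ∧ Odd t ∧ 3 ∣ t ∧ ¬ 9 ∣ t)) :
    KoblitzZero E t := by
  apply koblitz_of_finite E h4 h6 t 36 (by norm_num)
  have hfin : ∃ c : ℤ, ((c = 1 ∧ t % 4 = 2) ∨ (c = -3 ∧ Odd t ∧ ¬ 9 ∣ t)) ∧
      {p : ℕ | p.Prime ∧ 3 ∣ numPts E p ∧ ((c = 1 ∧ numPts E p % 4 = 2) ∨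
      (c = -3 ∧ Odd (numPts E p) ∧ ¬ 9 ∣ numPts E p))}.Finite := by
    rcases ht with ⟨h, ht4, -⟩ | ⟨h, hto, -, h9⟩
    · exact ⟨1, Or.inl ⟨rfl, ht4⟩, finite_exceptional E E₁ h₁ hi₁ n s hn hs hj 1 (Or.inl rfl)
        (by rw [h]; push_cast; ring)⟩
    · exact ⟨-3, Or.inr ⟨rfl, hto, h9⟩, finite_exceptional E E₁ h₁ hi₁ n s hn hs hj (-3)
        (Or.inr rfl) (by rw [h]; push_cast; ring)⟩
  have h3t : 3 ∣ t := by
    rcases ht with ⟨-, -, h⟩ | ⟨-, -, h, -⟩ <;> exact h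
  obtain ⟨c, hc, hfinc⟩ := hfin
  refine hfinc.subset ?_
  rintro p ⟨hp, -, u, hu, hN⟩
  have hu' : Nat.Coprime u.val 36 := by
    have := (ZMod.isUnit_iff_coprime u.val 36).mp (by rwa [ZMod.natCast_zmod_val])
    exact this
  have hmod : numPts E p ≡ t * u.val [MOD 36] := by
    rw [← ZMod.natCast_eq_natCast_iff, hN]
    push_cast
    rw [ZMod.natCast_zmod_val]
  have hu2 : u.val % 2 = 1 := by
    have h := Nat.Coprime.coprime_dvd_right (by norm_num : 2 ∣ 36) hu'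
    rw [Nat.coprime_two_right] at h
    exact Nat.odd_iff.mp h
  have hu3 : Nat.Coprime u.val 9 := Nat.Coprime.coprime_dvd_right (by norm_num : 9 ∣ 36) hu'
  have m4 : numPts E p ≡ t * u.val [MOD 4] := hmod.of_dvd (by norm_num)
  have m3 : numPts E p ≡ t * u.val [MOD 3] := hmod.of_dvd (by norm_num)
  have m9 : numPts E p ≡ t * u.val [MOD 9] := hmod.of_dvd (by norm_num)
  have m2 : numPts E p ≡ t * u.val [MOD 2] := hmod.of_dvd (by norm_num)
  refine ⟨hp, ?_, ?_⟩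
  · exact (m3.dvd_iff (dvd_refl 3)).mpr (h3t.mul_right _)
  · rcases hc with ⟨hc1, ht4⟩ | ⟨hc3, hto, h9⟩
    · left
      refine ⟨hc1, ?_⟩
      have h2 : numPts E p % 4 = (t * u.val) % 4 := m4
      rw [h2, Nat.mul_mod, ht4]
      have : u.val % 4 = 1 ∨ u.val % 4 = 3 := by omega
      rcases this with h | h <;> rw [h]
    · right
      refine ⟨hc3, ?_, ?_⟩
      · rw [Nat.odd_iff]
        have h2 : numPts E p % 2 = (t * u.val) % 2 := m2
        rw [h2, Nat.mul_mod, Nat.odd_iff.mp hto, hu2]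
      · intro h
        have h' : 9 ∣ t * u.val := (m9.dvd_iff (dvd_refl 9)).mp h
        exact h9 (hu3.symm.dvd_of_dvd_mul_right h')

end Pool.Agent.Helper95.KU.NonsplitThree
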