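import Pool.Agent.Helper28.Koblitz.TwistSum

set_option autoImplicit false

/-!
# If the number of points is divisible by eight
-/

namespace Pool.Agent.Helper95.KU

open WeierstrassCurve Pool.Agent.Helper28.Koblitz

section Group

variable {G : Type*} [AddCommGroup G] [Finite G]

theorem card_mul_range {A B : Type*} [AddCommGroup A] [AddCommGroup B] (f : A →+ B) :
    Nat.card f.ker * Nat.card f.range = Nat.card A := by
  rw [← AddSubgroup.index_ker, AddSubgroup.card_mul_index]

theorem card_le_two {A : Type*} [Finite A] (φ : A → G) (hφ : Function.Injective φ) (T : G)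
    (h : ∀ a, φ a = 0 ∨ φ a = T) : Nat.card A ≤ 2 := by
  classical
  have h1 : Nat.card A = (Set.range φ).ncard := by
    rw [← Nat.card_coe_set_eq]
    exact Nat.card_congr (Equiv.ofInjective φ hφ)
  rw [h1]
  have h2 : Set.range φ ⊆ ({0, T} : Set G) := by
    rintro _ ⟨a, rfl⟩
    exact h a
  calc (Set.range φ).ncard ≤ ({0, T} : Set G).ncard := Set.ncard_le_ncard h2 (Set.toFinite _)
    _ ≤ ({T} : Set G).ncard + 1 := Set.ncard_insert_le _ _
    _ = 2 := by rw [Set.ncard_singleton]

/-- In a finite abelian group of order divisible by eight with at most one involution `T`, the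
element `T` is divisible by four. -/
theorem exists_four_nsmul {T : G} (hT : ∀ z : G, z + z = 0 → z = 0 ∨ z = T)
    (h : 8 ∣ Nat.card G) : T ≠ 0 ∧ ∃ R : G, (R + R) + (R + R) = T := by
  classical
  let f : G →+ G := { toFun := fun z => z + z, map_zero' := add_zero 0,
                      map_add' := fun a b => add_add_add_comm a b a b }
  have hf : ∀ z, f z = z + z := fun _ => rfl
  let f4 : G →+ G := f.comp f
  have hf4 : ∀ z, f4 z = (z + z) + (z + z) := fun _ => rfl
  let g : f4.ker →+ G := f.comp f4.ker.subtype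
  have hg : ∀ z : f4.ker, g z = (z : G) + z := fun _ => rfl
  have c1 : Nat.card g.ker ≤ 2 := by
    refine card_le_two (fun z : g.ker => ((z : f4.ker) : G)) ?_ T ?_
    · intro a b hab
      exact Subtype.ext (Subtype.ext hab)
    · intro z
      exact hT _ ((hg _).symm.trans z.2)
  have c2 : Nat.card g.range ≤ 2 := by
    refine card_le_two (fun z : g.range => (z : G)) Subtype.val_injective T ?_
    rintro ⟨_, z, rfl⟩
    apply hT
    have := z.2
    rw [AddMonoidHom.mem_ker, hf4] at this
    exact this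
  have c3 : Nat.card f4.ker ≤ 4 := by
    rw [← card_mul_range g]
    calc _ ≤ 2 * 2 := Nat.mul_le_mul c1 c2
      _ = 4 := rfl
  have c4 : 2 ∣ Nat.card f4.range := by
    by_contra hodd
    have hc : Nat.Coprime 8 (Nat.card f4.range) := by
      have h2 : Nat.Coprime 2 (Nat.card f4.range) :=
        (Nat.Prime.coprime_iff_not_dvd Nat.prime_two).mpr hodd
      exact Nat.Coprime.pow_left 3 h2
    rw [← card_mul_range f4] at h
    have h3 : 8 ∣ Nat.card f4.ker := hc.dvd_of_dvd_mul_right h
    have h4 := Nat.le_of_dvd Nat.card_pos h3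
    omega
  have : Fact (Nat.Prime 2) := ⟨Nat.prime_two⟩
  obtain ⟨⟨z, R, hR⟩, hz⟩ := exists_prime_addOrderOf_dvd_card' (G := f4.range) 2 c4
  have hz2 : z + z = 0 := by
    have h1 := addOrderOf_nsmul_eq_zero (⟨z, R, hR⟩ : f4.range)
    rw [hz, two_nsmul] at h1
    exact congrArg Subtype.val h1
  have hz0 : z ≠ 0 := by
    intro h0
    have h1 : (⟨z, R, hR⟩ : f4.range) = 0 := Subtype.ext h0
    rw [h1, addOrderOf_zero] at hz
    omega
  rcases hT z hz2 with h1 | h1
  · exact absurd h1 hz0
  · rw [← h1]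
    exact ⟨hz0, R, hR⟩

end Group

section Curve

variable {F : Type*} [Field F]

/-- Another root makes the discriminant a square. -/
theorem isSquare_disc_of_two_roots {A B e r : F} (he : e ^ 3 + A * e + B = 0)
    (hr : r ^ 3 + A * r + B = 0) (her : r ≠ e) : IsSquare (-(4 * A ^ 3 + 27 * B ^ 2)) := by
  have h0 : e - r ≠ 0 := sub_ne_zero.mpr (Ne.symm her)
  have hA : A = -(e ^ 2 + e * r + r ^ 2) := by
    apply mul_left_cancel₀ h0
    linear_combination he - hr
  have hB : B = e * r * (e + r) := by
    rw [hA] at he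
    linear_combination he
  refine ⟨(e - r) * (2 * e + r) * (2 * r + e), ?_⟩
  rw [hA, hB]
  ring

variable [DecidableEq F]

/-- If the number of points is divisible by eight, and `e` is the only root of the cubic, then
`3 e² + A` is a fourth power. -/
theorem fourth_power_of_eight_dvd [Finite F] (h2F : (2 : F) ≠ 0) {A B e : F}
    (hΔ : (shortW A B).Δ ≠ 0) (he : e ^ 3 + A * e + B = 0)
    (huniq : ∀ r : F, r ^ 3 + A * r + B = 0 → r = e)
    (h : 8 ∣ Nat.card (shortW A B).toAffine.Point) :
    ∃ s : F, s ≠ 0 ∧ s ^ 4 = 3 * e ^ 2 + A := by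
  have hns : (shortW A B).toAffine.Nonsingular e 0 := shortW_nonsingular hΔ (by rw [he]; ring)
  obtain ⟨T, hTdef⟩ : ∃ T, T = Affine.Point.some e 0 hns := ⟨_, rfl⟩
  -- points with a double which is zero
  have hdbl : ∀ x y (hxy : (shortW A B).toAffine.Nonsingular x y),
      Affine.Point.some x y hxy + Affine.Point.some x y hxy = 0 → y = 0 := by
    intro x y hxy h0
    by_contra hy0
    have hne : y ≠ (shortW A B).toAffine.negY x y := by
      simp only [WeierstrassCurve.Affine.negY]
      intro e
      apply hy0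
      have : 2 * y = 0 := by linear_combination e
      rcases mul_eq_zero.mp this with h | h
      · exact absurd h h2F
      · exact h
    rw [Affine.Point.add_self_of_Y_ne hne] at h0
    exact Affine.Point.some_ne_zero _ h0
  have hT : ∀ z : (shortW A B).toAffine.Point, z + z = 0 → z = 0 ∨ z = T := by
    intro z hz
    rcases z with _ | ⟨x, y, hxy⟩
    · left; rfl
    · right
      have hy := hdbl x y hxy hz
      subst hy
      have hx : x ^ 3 + A * x + B = 0 := by
        have := (shortW_equation A B x 0).mp hxy.1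
        linear_combination -this
      have hxe := huniq x hx
      subst hxe
      rw [hTdef]
  obtain ⟨hT0, R, hR⟩ := exists_four_nsmul hT h
  -- formula for doubles
  have key : ∀ z z' : (shortW A B).toAffine.Point, z + z = z' → z' ≠ 0 →
      ∃ x y l x' y' h h', z = Affine.Point.some x y h ∧ z' = Affine.Point.some x' y' h' ∧
        y ≠ 0 ∧ 2 * l * y = 3 * x ^ 2 + A ∧ x' = l ^ 2 - 2 * x ∧ y' = -(l * (x' - x) + y) := by
    intro z z' hz hz'
    rcases z with _ | ⟨x, y, hxy⟩
    · exfalso
      apply hz'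
      rw [← hz]
      exact add_zero (0 : (shortW A B).toAffine.Point)
    · have hy0 : y ≠ 0 := by
        rintro rfl
        apply hz'
        rw [← hz]
        apply Affine.Point.add_self_of_Y_eq
        simp [WeierstrassCurve.Affine.negY]
      have hne : y ≠ (shortW A B).toAffine.negY x y := by
        simp only [WeierstrassCurve.Affine.negY]
        intro e
        apply hy0
        have : 2 * y = 0 := by linear_combination e
        rcases mul_eq_zero.mp this with h | h
        · exact absurd h h2F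
        · exact h
      obtain ⟨l, hldef⟩ : ∃ l, l = (shortW A B).toAffine.slope x x y y := ⟨_, rfl⟩
      have hyy : y - (shortW A B).toAffine.negY x y = 2 * y := by
        simp only [WeierstrassCurve.Affine.negY]; ring
      have h2y : 2 * y ≠ 0 := mul_ne_zero h2F hy0
      have hl : 2 * l * y = 3 * x ^ 2 + A := by
        rw [hldef, Affine.slope_of_Y_ne rfl hne, hyy]
        field_simp
        ring
      have h0 : Affine.Point.some x y hxy + Affine.Point.some x y hxy = _ :=
        Affine.Point.add_self_of_Y_ne hne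
      rw [hz] at h0
      refine ⟨x, y, l, _, _, hxy, _, rfl, h0, hy0, hl, ?_, ?_⟩
      · rw [← hldef]
        simp only [WeierstrassCurve.Affine.addX]
        ring
      · rw [← hldef]
        simp only [WeierstrassCurve.Affine.addY, WeierstrassCurve.Affine.negY,
          WeierstrassCurve.Affine.addX, WeierstrassCurve.Affine.negAddY]
        ring
  have hRR : R + R ≠ 0 := by
    intro h0
    rw [h0, add_zero] at hR
    exact hT0 hR.symm
  obtain ⟨x, y, l, x₂, y₂, hxy, hxy₂, hz, hz₂, hy0, hl, hx₂, hy₂⟩ := key R (R + R) rfl hRR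
  obtain ⟨x₃, y₃, m, x₄, y₄, hxy₃, hxy₄, hz₃, hz₄, hy0₃, hm, hx₄, hy₄⟩ := key (R + R) T hR hT0
  rw [hz₂, Affine.Point.some.injEq] at hz₃
  obtain ⟨rfl, rfl⟩ := hz₃
  rw [hTdef, Affine.Point.some.injEq] at hz₄
  obtain ⟨rfl, rfl⟩ := hz₄
  have hE := (shortW_equation A B x y).mp hxy.1
  have hE₂ := (shortW_equation A B x₂ y₂).mp hxy₂.1
  have hd : x₂ - e ≠ 0 := by
    intro h0
    apply hy0₃
    have : x₂ = e := sub_eq_zero.mp h0
    rw [this] at hy₄
    linear_combination hy₄
  -- `(x₂ - e)² = 3 e² + A`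
  have h1 : (x₂ - e) ^ 2 = 3 * e ^ 2 + A := by
    have h2 : y₂ = m * (x₂ - e) := by linear_combination hy₄
    have h3 : m ^ 2 = e + 2 * x₂ := by linear_combination -hx₄
    have h4 : (x₂ - e) ^ 2 * (e + 2 * x₂) = x₂ ^ 3 + A * x₂ + B := by
      rw [← h3, ← hE₂, h2]; ring
    apply mul_left_cancel₀ hd
    linear_combination h4 + he
  -- `x₂ - e` is a square
  have h2y : 2 * y ≠ 0 := mul_ne_zero h2F hy0
  have h4 : (2 * y) ^ 2 * (x₂ - e) = ((x - e) ^ 2 - (3 * e ^ 2 + A)) ^ 2 := by
    rw [hx₂]
    have h5 : (2 * y) ^ 2 * l ^ 2 = (3 * x ^ 2 + A) ^ 2 := by rw [← hl]; ring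
    linear_combination h5 - 4 * (2 * x + e) * hE - 4 * (2 * x + e) * he
  obtain ⟨s, hs⟩ : ∃ s, s * (2 * y) = (x - e) ^ 2 - (3 * e ^ 2 + A) :=
    ⟨((x - e) ^ 2 - (3 * e ^ 2 + A)) / (2 * y), div_mul_cancel₀ _ h2y⟩
  have hs2 : s ^ 2 = x₂ - e := by
    apply mul_left_cancel₀ (pow_ne_zero 2 h2y)
    rw [h4, ← hs]
    ring
  refine ⟨s, ?_, ?_⟩
  · rintro rfl
    apply hd
    rw [← hs2]
    ring
  · rw [← h1, ← hs2]
    ring

end Curve

end Pool.Agent.Helper95.KU
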