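import Pool.Agent.Helper95.KU.Eight
import Pool.Agent.Helper95.KU.FiveGlobal

set_option autoImplicit false

/-!
# If the number of points is divisible by eight then it is divisible by three
-/

namespace Pool.Agent.Helper95.KU

open WeierstrassCurve Pool.Agent.Helper28.Koblitz Filter

/-- If `-3` is not a square modulo the prime `p > 3`, then `p ≡ 2 mod 3`. -/
theorem three_dvd_succ' {p : ℕ} [Fact p.Prime] (h3 : p ≠ 3)
    (h : ¬ IsSquare (-3 : ZMod p)) : 3 ∣ p + 1 := by
  have hp : p.Prime := Fact.out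
  by_contra hcon
  apply h
  have hp3 : p % 3 = 1 := by
    have : p % 3 ≠ 0 := by
      intro h0
      exact h3 ((Nat.prime_dvd_prime_iff_eq Nat.prime_three hp).mp (Nat.dvd_of_mod_eq_zero h0)).symm
    omega
  have hcard : 3 ∣ Fintype.card (ZMod p)ˣ := by
    rw [ZMod.card_units]
    omega
  have : Fact (Nat.Prime 3) := ⟨Nat.prime_three⟩
  obtain ⟨u, hu⟩ := exists_prime_orderOf_dvd_card 3 hcard
  have hu3 : (u : ZMod p) ^ 3 = 1 := by
    have := pow_orderOf_eq_one u
    rw [hu] at this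
    have h' := congrArg Units.val this
    simpa using h'
  have hu1 : (u : ZMod p) ≠ 1 := by
    intro h1
    have : u = 1 := Units.ext h1
    rw [this, orderOf_one] at hu
    exact absurd hu (by norm_num)
  have hq : (u : ZMod p) ^ 2 + u + 1 = 0 := by
    have : ((u : ZMod p) - 1) * ((u : ZMod p) ^ 2 + u + 1) = 0 := by linear_combination hu3
    rcases mul_eq_zero.mp this with h | h
    · exact absurd (sub_eq_zero.mp h) hu1
    · exact h
  exact ⟨2 * u + 1, by linear_combination (-4 : ZMod p) * hq⟩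

/-- The local statement: if `-3` is a square, the discriminant is not a square, and the number of
points is divisible by eight, there is a contradiction. -/
theorem not_isSquare_neg_three {p : ℕ} [Fact p.Prime] (E : WeierstrassCurve ℤ) (h2 : p ≠ 2)
    (h3 : p ≠ 3) (hgood : ¬ (((p : ℕ) : ℤ) ∣ E.Δ)) {e n m : ZMod p}
    (he : e ^ 3 + (-27 * (E.c₄ : ZMod p)) * e + (-54 * (E.c₆ : ZMod p)) = 0)
    (hf : 3 * e ^ 2 + (-27 * (E.c₄ : ZMod p)) = -n ^ 2)
    (hD : 9 * e ^ 2 + 4 * n ^ 2 = 6 * n * m ^ 2)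
    (hns : ¬ IsSquare (E.Δ : ZMod p)) (h8 : 8 ∣ numPts E p) : ¬ IsSquare (-3 : ZMod p) := by
  classical
  have hp : p.Prime := Fact.out
  have e2 := two_ne_zero_zmod hp h2
  have hΔ := shortW_Δ_ne_zero e2 (disc_ne_zero E h2 h3 hgood)
  rw [numPts_eq_card E h2 h3 hgood] at h8
  have huniq : ∀ r : ZMod p, r ^ 3 + (-27 * (E.c₄ : ZMod p)) * r + (-54 * (E.c₆ : ZMod p)) = 0 →
      r = e := by
    intro r hr
    by_contra hne
    apply hns
    rw [← isSquare_Δ_iff E h2 h3]
    exact isSquare_disc_of_two_roots he hr hne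
  obtain ⟨s, hs0, hs⟩ := fourth_power_of_eight_dvd e2 hΔ he huniq h8
  rw [hf] at hs
  rintro ⟨r, hr⟩
  apply hns
  rw [← isSquare_Δ_iff E h2 h3]
  have hs2 : s ^ 2 ≠ 0 := pow_ne_zero 2 hs0
  obtain ⟨i, hi⟩ : ∃ i, n = i * s ^ 2 := ⟨n / s ^ 2, (div_mul_cancel₀ n hs2).symm⟩
  have hi2 : i ^ 2 = -1 := by
    apply mul_left_cancel₀ (pow_ne_zero 4 hs0)
    rw [hi] at hs
    linear_combination hs
  -- `6 n` is a square
  have h6 : 6 * n = ((1 + i) * s * (i * r)) ^ 2 := by
    have h7 : r ^ 2 = -3 := by rw [hr]; ring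
    rw [hi]
    have h8 : ((1 + i) * s * (i * r)) ^ 2 = (1 + 2 * i + i ^ 2) * s ^ 2 * (i ^ 2 * r ^ 2) := by ring
    rw [h8, h7, hi2]
    ring
  refine ⟨n ^ 2 * m * ((1 + i) * s * (i * r)), ?_⟩
  have hB : -54 * (E.c₆ : ZMod p) = -(e ^ 3 + (-27 * (E.c₄ : ZMod p)) * e) := by
    linear_combination he
  have hA : -27 * (E.c₄ : ZMod p) = -n ^ 2 - 3 * e ^ 2 := by linear_combination hf
  rw [hB, hA]
  have h9 : n ^ 2 * m * ((1 + i) * s * (i * r)) * (n ^ 2 * m * ((1 + i) * s * (i * r))) =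
      n ^ 4 * (6 * n * m ^ 2) := by
    have : n ^ 2 * m * ((1 + i) * s * (i * r)) * (n ^ 2 * m * ((1 + i) * s * (i * r))) =
      n ^ 4 * m ^ 2 * ((1 + i) * s * (i * r)) ^ 2 := by ring
    rw [this, ← h6]
    ring
  rw [h9, ← hD]
  ring

/-- `E` has a rational point of order two with a relation between the discriminant and the
derivative of the cubic. -/
structure EightData (E : WeierstrassCurve ℤ) (e n m : ℚ) : Prop where
  root : e ^ 3 - 27 * E.c₄ * e - 54 * E.c₆ = 0
  deriv : 3 * e ^ 2 - 27 * E.c₄ = -n ^ 2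
  disc : 9 * e ^ 2 + 4 * n ^ 2 = 6 * n * m ^ 2

theorem finite_eight (E E' : WeierstrassCurve ℤ) (hE : E.Δ ≠ 0) {e n m : ℚ}
    (h : EightData E e n m)
    (hiso : {p : ℕ | p.Prime ∧ numPts E' p ≠ numPts (quadTwist E E.Δ) p}.Finite)
    (h3 : {p : ℕ | p.Prime ∧ ¬ 3 ∣ numPts E' p}.Finite) :
    {p : ℕ | p.Prime ∧ 8 ∣ numPts E p ∧ ¬ 3 ∣ numPts E p}.Finite := by
  have hev : ∀ᶠ p : ℕ in cofinite, p.Prime → 8 ∣ numPts E p → 3 ∣ numPts E p := by
    have b1 : ∀ᶠ p : ℕ in cofinite, 3 < p := by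
      rw [Filter.eventually_cofinite]
      refine (Set.finite_Iic 3).subset ?_
      intro p hp
      simpa using hp
    have b2 : ∀ᶠ p : ℕ in cofinite, ¬ (((p : ℕ) : ℤ) ∣ E.Δ) := by
      rw [Filter.eventually_cofinite]
      refine (finite_dvd hE).subset ?_
      intro p hp
      simpa using hp
    have b3 : ∀ᶠ p : ℕ in cofinite, p.Prime → numPts E' p = numPts (quadTwist E E.Δ) p := by
      rw [Filter.eventually_cofinite]
      refine hiso.subset ?_
      intro p hp
      simpa using hp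
    have b4 : ∀ᶠ p : ℕ in cofinite, p.Prime → 3 ∣ numPts E' p := by
      rw [Filter.eventually_cofinite]
      refine h3.subset ?_
      intro p hp
      simpa using hp
    filter_upwards [b1, b2, b3, b4, eventually_mem_intRat e, eventually_mem_intRat n,
      eventually_mem_intRat m] with p hp3 hgood hc hd ie jn km hp h8
    have : Fact p.Prime := ⟨hp⟩
    have h3' := hd hp
    rw [hc hp] at h3'
    have hD0 : (E.Δ : ZMod p) ≠ 0 := by
      rw [Ne, ZMod.intCast_zmod_eq_zero_iff_dvd]; exact hgood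
    by_cases hsq : IsSquare (E.Δ : ZMod p)
    · rw [numPts_quadTwist_of_isSquare E (by omega) (by omega) hD0 hsq] at h3'
      exact h3'
    · have hadd := numPts_quadTwist_add E (p := p) (by omega) (by omega) hsq
      obtain ⟨e', he'⟩ : ∃ e' : intRat p, (e' : ℚ) = e := ⟨⟨e, ie⟩, rfl⟩
      obtain ⟨n', hn'⟩ : ∃ n' : intRat p, (n' : ℚ) = n := ⟨⟨n, jn⟩, rfl⟩
      obtain ⟨m', hm'⟩ : ∃ m' : intRat p, (m' : ℚ) = m := ⟨⟨m, km⟩, rfl⟩
      have r1 : e' ^ 3 - 27 * (E.c₄ : intRat p) * e' - 54 * (E.c₆ : intRat p) = 0 := by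
        apply (intRat p).subtype_injective
        simp only [map_sub, map_mul, map_pow, map_intCast, map_ofNat, map_zero]
        rw [← h.root, ← he']
        rfl
      have r2 : 3 * e' ^ 2 - 27 * (E.c₄ : intRat p) = -n' ^ 2 := by
        apply (intRat p).subtype_injective
        simp only [map_sub, map_mul, map_pow, map_neg, map_intCast, map_ofNat]
        have := h.deriv
        rw [← he', ← hn'] at this
        exact this
      have r3 : 9 * e' ^ 2 + 4 * n' ^ 2 = 6 * n' * m' ^ 2 := by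
        apply (intRat p).subtype_injective
        simp only [map_add, map_mul, map_pow, map_ofNat]
        have := h.disc
        rw [← he', ← hn', ← hm'] at this
        exact this
      have q1 := congrArg (redHom p) r1
      have q2 := congrArg (redHom p) r2
      have q3 := congrArg (redHom p) r3
      simp only [map_sub, map_add, map_mul, map_pow, map_neg, map_intCast, map_ofNat,
        map_zero] at q1 q2 q3
      have hneg := not_isSquare_neg_three E (p := p) (by omega) (by omega) hgood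
        (e := redHom p e') (n := redHom p n') (m := redHom p m')
        (by linear_combination q1) (by linear_combination q2) q3 hsq h8
      have h31 := three_dvd_succ' (p := p) (by omega) hneg
      omega
  rw [Filter.eventually_cofinite] at hev
  refine hev.subset ?_
  rintro p ⟨hp, h8, h3'⟩
  intro hcc
  exact h3' (hcc hp h8)

/-- If `N = t u` modulo `24` with a unit `u`, `8 ∣ t` and `3 ∤ t`, then `8 ∣ N` and `3 ∤ N`. -/
theorem eight_not_three {t N : ℕ} (h8 : 8 ∣ t) (h3 : ¬ 3 ∣ t) {u : ZMod 24}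
    (hN : (N : ZMod 24) = (t : ZMod 24) * u) (hu : IsUnit u) : 8 ∣ N ∧ ¬ 3 ∣ N := by
  have hu' : Nat.Coprime u.val 24 := by
    have := (ZMod.isUnit_iff_coprime u.val 24).mp (by rwa [ZMod.natCast_zmod_val])
    exact this
  have hmod : N ≡ t * u.val [MOD 24] := by
    rw [← ZMod.natCast_eq_natCast_iff, hN]
    push_cast
    rw [ZMod.natCast_zmod_val]
  constructor
  · have h5 : N ≡ t * u.val [MOD 8] := hmod.of_dvd (by norm_num)
    exact (h5.dvd_iff (dvd_refl 8)).mpr (h8.mul_right _)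
  · intro h2
    have h5 : N ≡ t * u.val [MOD 3] := hmod.of_dvd (by norm_num)
    have h4 : 3 ∣ t * u.val := (h5.dvd_iff (dvd_refl 3)).mp h2
    have h6 : Nat.Coprime 3 u.val := (Nat.Coprime.coprime_dvd_right (by norm_num) hu').symm
    exact h3 (h6.dvd_of_dvd_mul_right h4)

theorem koblitzZero_eight (E E' : WeierstrassCurve ℤ) (h4 : E.c₄ ≠ 0) (h6 : E.c₆ ≠ 0)
    (hE : E.Δ ≠ 0) {e n m : ℚ} (h : EightData E e n m)
    (hiso : {p : ℕ | p.Prime ∧ numPts E' p ≠ numPts (quadTwist E E.Δ) p}.Finite)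
    (h3 : {p : ℕ | p.Prime ∧ ¬ 3 ∣ numPts E' p}.Finite) (t : ℕ) (ht8 : 8 ∣ t) (ht3 : ¬ 3 ∣ t) :
    KoblitzZero E t := by
  apply koblitz_of_finite E h4 h6 t 24 (by norm_num)
  refine (finite_eight E E' hE h hiso h3).subset ?_
  rintro p ⟨hp, hgood, u, hu, hN⟩
  obtain ⟨a1, a2⟩ := eight_not_three ht8 ht3 hN hu
  exact ⟨hp, a1, a2⟩

end Pool.Agent.Helper95.KU
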