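import Pool.Agent.Helper28.Koblitz.Reduction

set_option autoImplicit false

/-!
# A point of order five on a short Weierstrass curve over a finite field
-/

namespace Pool.Agent.Helper95.KU

open WeierstrassCurve Pool.Agent.Helper28.Koblitz

section

variable {F : Type*} [Field F] [DecidableEq F]

/-- Coordinates of a point of order five: `(x, y)` is the point, `l` the slope of the tangent,
`d = x(2P) - x(P)`. -/
theorem exists_five [Finite F] (h2F : (2 : F) ≠ 0) {A B : F}
    (h : 5 ∣ Nat.card (shortW A B).toAffine.Point) :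
    ∃ x y l d : F, y ^ 2 = x ^ 3 + A * x + B ∧ y ≠ 0 ∧ d ≠ 0 ∧ l ^ 2 = 3 * x + d ∧
      2 * l * y = 3 * x ^ 2 + A ∧ 4 * l * y * d = d ^ 3 - 4 * y ^ 2 := by
  have : Fact (Nat.Prime 5) := ⟨Nat.prime_five⟩
  obtain ⟨P, hP⟩ := exists_prime_addOrderOf_dvd_card' (G := (shortW A B).toAffine.Point) 5 h
  rcases P with _ | ⟨x, y, hns⟩
  · exfalso
    have : addOrderOf (0 : (shortW A B).toAffine.Point) = 5 := hP
    rw [addOrderOf_zero] at this
    omega
  obtain ⟨P, hPdef⟩ : ∃ P, P = Affine.Point.some x y hns := ⟨_, rfl⟩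
  rw [← hPdef] at hP
  have h5 : (5 : ℕ) • P = 0 := by rw [← hP]; exact addOrderOf_nsmul_eq_zero _
  have hP0 : P ≠ 0 := by rw [hPdef]; exact Affine.Point.some_ne_zero _
  have hk : ∀ k : ℕ, 0 < k → k < 5 → k • P ≠ 0 := by
    intro k hk hk5 h0
    have h1 := addOrderOf_dvd_of_nsmul_eq_zero h0
    rw [hP] at h1
    exact absurd (Nat.le_of_dvd hk h1) (by omega)
  have hy0 : y ≠ 0 := by
    rintro rfl
    apply hk 2 (by norm_num) (by norm_num)
    rw [two_nsmul, hPdef]
    apply Affine.Point.add_self_of_Y_eq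
    simp [WeierstrassCurve.Affine.negY]
  have hne : y ≠ (shortW A B).toAffine.negY x y := by
    simp only [WeierstrassCurve.Affine.negY]
    intro e
    apply hy0
    have : 2 * y = 0 := by linear_combination e
    rcases mul_eq_zero.mp this with h | h
    · exact absurd h h2F
    · exact h
  obtain ⟨l, hldef⟩ : ∃ l, l = (shortW A B).toAffine.slope x x y y := ⟨_, rfl⟩
  have hyy : y - (shortW A B).toAffine.negY x y = 2 * y := by
    simp only [WeierstrassCurve.Affine.negY]; ring
  have h2y : 2 * y ≠ 0 := mul_ne_zero h2F hy0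
  have hl : 2 * l * y = 3 * x ^ 2 + A := by
    rw [hldef, Affine.slope_of_Y_ne rfl hne, hyy]
    field_simp
    ring
  -- the double
  have h2P : ∃ x' y' h', P + P = Affine.Point.some x' y' h' ∧ x' = l ^ 2 - 2 * x ∧
      y' = -(l * (x' - x) + y) := by
    have h0 : Affine.Point.some x y hns + Affine.Point.some x y hns = _ :=
      Affine.Point.add_self_of_Y_ne hne
    rw [← hPdef] at h0
    refine ⟨_, _, _, h0, ?_, ?_⟩
    · rw [← hldef]
      simp only [WeierstrassCurve.Affine.addX]
      ring
    · rw [← hldef]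
      simp only [WeierstrassCurve.Affine.addY, WeierstrassCurve.Affine.negY,
        WeierstrassCurve.Affine.addX, WeierstrassCurve.Affine.negAddY]
      ring
  obtain ⟨x', y', hns', hPP, hx', hy'⟩ := h2P
  obtain ⟨Q, hQdef⟩ : ∃ Q, Q = Affine.Point.some x' y' hns' := ⟨_, rfl⟩
  rw [← hQdef] at hPP
  have hQQ : Q + Q = -P := by
    rw [eq_neg_iff_add_eq_zero, ← h5, ← hPP]
    simp only [succ_nsmul, zero_nsmul, zero_add]
    abel
  have hy0' : y' ≠ 0 := by
    rintro rfl
    apply hk 4 (by norm_num) (by norm_num)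
    have h4 : (4 : ℕ) • P = Q + Q := by
      rw [← hPP]
      simp only [succ_nsmul, zero_nsmul, zero_add]
      abel
    rw [h4, hQdef]
    apply Affine.Point.add_self_of_Y_eq
    simp [WeierstrassCurve.Affine.negY]
  have hne' : y' ≠ (shortW A B).toAffine.negY x' y' := by
    simp only [WeierstrassCurve.Affine.negY]
    intro e
    apply hy0'
    have : 2 * y' = 0 := by linear_combination e
    rcases mul_eq_zero.mp this with h | h
    · exact absurd h h2F
    · exact h
  obtain ⟨m, hmdef⟩ : ∃ m, m = (shortW A B).toAffine.slope x' x' y' y' := ⟨_, rfl⟩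
  have hyy' : y' - (shortW A B).toAffine.negY x' y' = 2 * y' := by
    simp only [WeierstrassCurve.Affine.negY]; ring
  have h2y' : 2 * y' ≠ 0 := mul_ne_zero h2F hy0'
  have hm : 2 * m * y' = 3 * x' ^ 2 + A := by
    rw [hmdef, Affine.slope_of_Y_ne rfl hne', hyy']
    field_simp
    ring
  rw [hQdef, Affine.Point.add_self_of_Y_ne hne', hPdef, Affine.Point.neg_some,
    Affine.Point.some.injEq, ← hmdef] at hQQ
  obtain ⟨hX, hY⟩ := hQQ
  simp only [WeierstrassCurve.Affine.addX] at hX
  simp only [WeierstrassCurve.Affine.addY, WeierstrassCurve.Affine.negY,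
    WeierstrassCurve.Affine.addX, WeierstrassCurve.Affine.negAddY] at hY
  have hX' : m ^ 2 = x + 2 * x' := by linear_combination hX
  have hY' : y = m * (x - x') + y' := by
    linear_combination hY + m * hX
  have hd0 : x' - x ≠ 0 := by
    intro h0
    have h1 : x' = x := sub_eq_zero.mp h0
    have h2 : y' = -y := by rw [hy', h0]; ring
    apply hk 3 (by norm_num) (by norm_num)
    have h3 : (3 : ℕ) • P = Q + P := by
      rw [← hPP]
      simp only [succ_nsmul, zero_nsmul, zero_add]
    have h4 : Q = -P := by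
      rw [hQdef, hPdef, Affine.Point.neg_some, Affine.Point.some.injEq]
      refine ⟨h1, ?_⟩
      simp only [WeierstrassCurve.Affine.negY]
      rw [h2]; ring
    rw [h3, h4, neg_add_cancel]
  refine ⟨x, y, l, x' - x, (shortW_equation A B x y).mp hns.1, hy0, hd0, ?_, hl, ?_⟩
  · linear_combination -hx'
  · -- `m = - l - 2 y / d`
    obtain ⟨d, hd⟩ : ∃ d, d = x' - x := ⟨_, rfl⟩
    have hx'' : x' = x + d := by rw [hd]; ring
    rw [← hd] at hd0 hy' ⊢
    have e1 : m * d = -(l * d + 2 * y) := by
      have : y = m * (x - x') + y' := hY'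
      rw [hx'', hy'] at this
      linear_combination this
    have e2 : m ^ 2 = l ^ 2 + d := by
      rw [hX', hx'']
      have : x' = l ^ 2 - 2 * x := hx'
      rw [hx''] at this
      linear_combination this
    have e3 : (m * d) ^ 2 = (l * d + 2 * y) ^ 2 := by rw [e1]; ring
    have e4 : d ^ 2 * (l ^ 2 + d) = (l * d + 2 * y) ^ 2 := by
      rw [← e2]; linear_combination e3
    linear_combination -e4

end

end Pool.Agent.Helper95.KU
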