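import Pool.Agent.Helper95.KU.Five

set_option autoImplicit false

/-!
The 5-isogeny parameter of a curve over a finite field with a point of order five.
-/

namespace Pool.Agent.Helper95.KU

open WeierstrassCurve Pool.Agent.Helper28.Koblitz

section

variable {F : Type*} [Field F]

theorem five_alg (e2 : (2 : F) ≠ 0) (e3 : (3 : F) ≠ 0) {C4 C6 x y l d : F}
    (h0 : y ^ 2 = x ^ 3 + (-27 * C4) * x + (-54 * C6)) (hy : y ≠ 0) (hd : d ≠ 0)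
    (h1 : l ^ 2 = 3 * x + d) (h2 : 2 * l * y = 3 * x ^ 2 + (-27 * C4))
    (h3 : 4 * l * y * d = d ^ 3 - 4 * y ^ 2) :
    ∃ H : F, (C4 ^ 3 - C6 ^ 2) * (H ^ 2 + 10 * H + 5) ^ 3 = 1728 * C4 ^ 3 * H := by
  have hC : 1296 * C4 = 16 * (l ^ 2 - d) ^ 2 - 96 * l * y := by
    linear_combination 48 * h2 - 16 * (l ^ 2 - d + 3 * x) * h1
  obtain ⟨g, hg⟩ : ∃ g, g = d ^ 3 := ⟨_, rfl⟩
  obtain ⟨q, hq⟩ : ∃ q, q = 4 * y ^ 2 := ⟨_, rfl⟩
  have h4 : (4 : F) ≠ 0 := by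
    have : (4 : F) = 2 ^ 2 := by norm_num
    rw [this]; exact pow_ne_zero _ e2
  have hg0 : g ≠ 0 := by rw [hg]; exact pow_ne_zero _ hd
  have hq0 : q ≠ 0 := by rw [hq]; exact mul_ne_zero h4 (pow_ne_zero _ hy)
  have hm : 4 * l * y * d = g - q := by rw [hg, hq]; exact h3
  have I4 : 1296 * C4 * (d ^ 4 * q ^ 2) =
      g ^ 4 - 12 * g ^ 3 * q + 14 * g ^ 2 * q ^ 2 + 12 * g * q ^ 3 + q ^ 4 := by
    have h5 : 1296 * C4 * (d ^ 4 * q ^ 2) = ((4 * l * y * d) ^ 2 - 4 * g * q) ^ 2 -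
        24 * (4 * l * y * d) * g * q ^ 2 := by
      rw [hg, hq]
      linear_combination (d ^ 4 * (4 * y ^ 2) ^ 2) * hC
    rw [h5, hm]
    ring
  have hD1 : 1259712 * (C4 ^ 3 - C6 ^ 2) =
      q * (16 * d * (l ^ 2 - d) ^ 2 + 16 * l ^ 3 * y - 144 * d * l * y - 27 * q) := by
    have ha : 27 * C4 = 3 * x ^ 2 - 2 * l * y := by linear_combination h2
    have hb : 54 * C6 = -2 * x ^ 3 + 2 * l * x * y - y ^ 2 := by
      linear_combination h0 - x * h2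
    have hd' : d = l ^ 2 - 3 * x := by linear_combination -h1
    have h5 : 1259712 * (C4 ^ 3 - C6 ^ 2) = 64 * (27 * C4) ^ 3 - 432 * (54 * C6) ^ 2 := by ring
    rw [h5, ha, hb, hq, hd']
    ring
  have hD : 1259712 * (C4 ^ 3 - C6 ^ 2) * q = g * (g ^ 2 - 11 * g * q - q ^ 2) := by
    have h5 : g * (1259712 * (C4 ^ 3 - C6 ^ 2) * q) =
        ((4 * l * y * d) ^ 2 - 4 * g * q) ^ 2 + (4 * l * y * d) ^ 3 * q -
          36 * (4 * l * y * d) * q ^ 2 * g - 27 * q ^ 3 * g := by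
      rw [hD1, hg, hq]
      ring
    rw [hm] at h5
    apply mul_left_cancel₀ hg0
    rw [h5]
    ring
  refine ⟨(g ^ 2 - 11 * g * q - q ^ 2) / (g * q), ?_⟩
  have hgq : g * q ≠ 0 := mul_ne_zero hg0 hq0
  obtain ⟨K, hK⟩ : ∃ K, K = (g ^ 2 - 11 * g * q - q ^ 2) / (g * q) := ⟨_, rfl⟩
  have hKg : K * (g * q) = g ^ 2 - 11 * g * q - q ^ 2 := by
    rw [hK, div_mul_cancel₀ _ hgq]
  rw [← hK]
  have hS : (K ^ 2 + 10 * K + 5) * (g * q) ^ 2 =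
      g ^ 4 - 12 * g ^ 3 * q + 14 * g ^ 2 * q ^ 2 + 12 * g * q ^ 3 + q ^ 4 := by
    have h5 : (K ^ 2 + 10 * K + 5) * (g * q) ^ 2 =
        (K * (g * q)) ^ 2 + 10 * (K * (g * q)) * (g * q) + 5 * (g * q) ^ 2 := by ring
    rw [h5, hKg]
    ring
  rw [← I4] at hS
  have h6 : (K ^ 2 + 10 * K + 5) * g ^ 2 = 1296 * C4 * d ^ 4 := by
    apply mul_left_cancel₀ (pow_ne_zero 2 hq0)
    linear_combination hS
  have hd12 : d ^ 12 = g ^ 4 := by rw [hg]; ring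
  have hne : (1259712 : F) * g ^ 6 * q ≠ 0 := by
    have : (1259712 : F) = 2 ^ 6 * 3 ^ 9 := by norm_num
    rw [this]
    exact mul_ne_zero (mul_ne_zero (mul_ne_zero (pow_ne_zero _ e2) (pow_ne_zero _ e3))
      (pow_ne_zero _ hg0)) hq0
  apply mul_left_cancel₀ hne
  calc 1259712 * g ^ 6 * q * ((C4 ^ 3 - C6 ^ 2) * (K ^ 2 + 10 * K + 5) ^ 3)
      = (1259712 * (C4 ^ 3 - C6 ^ 2) * q) * ((K ^ 2 + 10 * K + 5) * g ^ 2) ^ 3 := by ring
    _ = (g * (g ^ 2 - 11 * g * q - q ^ 2)) * (1296 * C4 * d ^ 4) ^ 3 := by rw [hD, h6]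
    _ = (g * (K * (g * q))) * (1296 ^ 3 * C4 ^ 3 * d ^ 12) := by rw [hKg]; ring
    _ = 1259712 * g ^ 6 * q * (1728 * C4 ^ 3 * K) := by rw [hd12]; ring

/-- If the number of points is divisible by five, there is a 5-isogeny parameter. -/
theorem five_param [Finite F] [DecidableEq F] (e2 : (2 : F) ≠ 0) (e3 : (3 : F) ≠ 0) {C4 C6 : F}
    (h : 5 ∣ Nat.card (shortW (-27 * C4) (-54 * C6)).toAffine.Point) :
    ∃ H : F, (C4 ^ 3 - C6 ^ 2) * (H ^ 2 + 10 * H + 5) ^ 3 = 1728 * C4 ^ 3 * H := by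
  obtain ⟨x, y, l, d, h0, hy, hd, h1, h2, h3⟩ := exists_five e2 h
  exact five_alg e2 e3 h0 hy hd h1 h2 h3

end

end Pool.Agent.Helper95.KU
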