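import Mathlib

set_option autoImplicit false

/-!
The cubic resolvent of the curves with exceptional image modulo five.
-/

namespace Pool.Agent.Helper95.KU

/-- The polynomial whose quotient by the derivative is the root. -/
def gy {F : Type*} [CommRing F] (H t : F) : F :=
  H * ((H - 5) * t ^ 4 + (H ^ 2 + 15 * H - 30) * t ^ 3 + (H ^ 3 + 25 * H ^ 2 + 195 * H + 75) * t ^ 2 +
    (H ^ 4 + 30 * H ^ 3 + 320 * H ^ 2 + 1250 * H + 575) * t) +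
    (H ^ 6 + 30 * H ^ 5 + 335 * H ^ 4 + 1700 * H ^ 3 + 3775 * H ^ 2 + 2750 * H + 625)

theorem gy_eq {F : Type*} [CommRing F] (H t : F) :
    gy H t ^ 3 + (5 - t) * gy H t ^ 2 * (5 * H * t ^ 2 * (t ^ 2 + 4 * t + 24)) -
      5 * (1 + t) * gy H t * (5 * H * t ^ 2 * (t ^ 2 + 4 * t + 24)) ^ 2 -
      5 * (5 + t) * (5 * H * t ^ 2 * (t ^ 2 + 4 * t + 24)) ^ 3 =
    (H * (t ^ 5 + 5 * t ^ 4 + 40 * t ^ 3) - (H ^ 2 + 10 * H + 5) ^ 3) *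
    (
      -H ^ 12 - 3 * H ^ 11 * t - 60 * H ^ 11 - 6 * H ^ 10 * t ^ 2 - 180 * H ^ 10 * t - 1590
      * H ^ 10 - 10 * H ^ 9 * t ^ 3 - 345 * H ^ 9 * t ^ 2 - 4725 * H ^ 9 * t - 24500 * H ^
      9 - 15 * H ^ 8 * t ^ 4 - 525 * H ^ 8 * t ^ 3 - 8580 * H ^ 8 * t ^ 2 - 70800 * H ^ 8 *
      t - 243075 * H ^ 8 - 14 * H ^ 7 * t ^ 5 - 670 * H ^ 7 * t ^ 4 - 11600 * H ^ 7 * t ^ 3
      - 119400 * H ^ 7 * t ^ 2 - 663150 * H ^ 7 * t - 1623000 * H ^ 7 - 12 * H ^ 6 * t ^ 6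
      - 580 * H ^ 6 * t ^ 5 - 12470 * H ^ 6 * t ^ 4 - 139625 * H ^ 6 * t ^ 3 - 1006800 * H
      ^ 6 * t ^ 2 - 3999000 * H ^ 6 * t - 7394500 * H ^ 6 - 9 * H ^ 5 * t ^ 7 - 405 * H ^ 5
      * t ^ 6 - 9325 * H ^ 5 * t ^ 5 - 121775 * H ^ 5 * t ^ 4 - 979300 * H ^ 5 * t ^ 3 -
      5195250 * H ^ 5 * t ^ 2 - 15404250 * H ^ 5 * t - 22785000 * H ^ 5 - 5 * H ^ 4 * t ^ 8
      - 210 * H ^ 4 * t ^ 7 - 4910 * H ^ 4 * t ^ 6 - 70375 * H ^ 4 * t ^ 5 - 640375 * H ^ 4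
      * t ^ 4 - 3898375 * H ^ 4 * t ^ 3 - 15661500 * H ^ 4 * t ^ 2 - 36210000 * H ^ 4 * t -
      45984375 * H ^ 4 - 75 * H ^ 3 * t ^ 8 - 1550 * H ^ 3 * t ^ 7 - 24825 * H ^ 3 * t ^ 6
      - 239225 * H ^ 3 * t ^ 5 - 1647000 * H ^ 3 * t ^ 4 - 7684000 * H ^ 3 * t ^ 3 -
      24240000 * H ^ 3 * t ^ 2 - 46809375 * H ^ 3 * t - 57187500 * H ^ 3 - 125 * H ^ 2 * t
      ^ 8 - 2125 * H ^ 2 * t ^ 7 - 29500 * H ^ 2 * t ^ 6 - 215625 * H ^ 2 * t ^ 5 - 1282500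
      * H ^ 2 * t ^ 4 - 4671875 * H ^ 2 * t ^ 3 - 14006250 * H ^ 2 * t ^ 2 - 26812500 * H ^
      2 * t - 39843750 * H ^ 2 - 46875 * H * t ^ 4 - 281250 * H * t ^ 3 - 2578125 * H * t ^
      2 - 5390625 * H * t - 14062500 * H - 1953125) := by
  unfold gy
  ring

/-- A 5-isogeny parameter `H` and a rational root `t` of the quintic resolvent give a root of the
cubic resolvent. -/
theorem exists_y {F : Type*} [Field F] (e5 : (5 : F) ≠ 0) {H t : F} (hH : H ≠ 0) (ht : t ≠ 0)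
    (hb : t ^ 2 + 4 * t + 24 ≠ 0)
    (hR : H * (t ^ 5 + 5 * t ^ 4 + 40 * t ^ 3) = (H ^ 2 + 10 * H + 5) ^ 3) :
    ∃ y : F, (y + 5) * (y ^ 2 - 5) = t * (y ^ 2 + 5 * y + 5) := by
  obtain ⟨W, hW⟩ : ∃ W, W = 5 * H * t ^ 2 * (t ^ 2 + 4 * t + 24) := ⟨_, rfl⟩
  have hW0 : W ≠ 0 := by
    rw [hW]
    exact mul_ne_zero (mul_ne_zero (mul_ne_zero e5 hH) (pow_ne_zero _ ht)) hb
  have h := gy_eq H t
  rw [hR, sub_self, zero_mul, ← hW] at h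
  refine ⟨gy H t / W, ?_⟩
  obtain ⟨y, hy⟩ : ∃ y, y = gy H t / W := ⟨_, rfl⟩
  have hyW : gy H t = y * W := by rw [hy, div_mul_cancel₀ _ hW0]
  rw [← hy]
  rw [hyW] at h
  apply mul_left_cancel₀ (pow_ne_zero 3 hW0)
  linear_combination h

end Pool.Agent.Helper95.KU
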