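import Pool.Agent.Helper95.KU.Five2
import Pool.Agent.Helper95.KU.Resolvent

set_option autoImplicit false

/-!
# The family with exceptional image modulo five: over a finite field
-/

namespace Pool.Agent.Helper95.KU

open WeierstrassCurve Pool.Agent.Helper28.Koblitz

section

variable {R : Type*} [CommRing R]

/-- The quintic resolvent parameter. -/
def ft (s : R) : R := 5 * s ^ 2 + 3

def fa (s : R) : R := ft s ^ 2 + 5 * ft s + 40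

def fb (s : R) : R := ft s ^ 2 + 4 * ft s + 24

theorem fj (s : R) : fa s * ft s ^ 3 - 5 * s ^ 2 * fb s ^ 2 = 1728 := by
  unfold fa fb ft; ring

theorem root_identity {p q W c a : R} (ha : 4 * a = c ^ 2 + 135)
    (hW : W ^ 3 = 3 * a * W + a * c) :
    (3 * p * W + q * (c * W - 2 * W ^ 2 + 4 * a)) ^ 3 -
      27 * a * (p ^ 2 + 15 * q ^ 2) * (3 * p * W + q * (c * W - 2 * W ^ 2 + 4 * a)) -
      27 * a * (c * (p ^ 3 - 45 * p * q ^ 2) - 45 * (3 * p ^ 2 * q - 15 * q ^ 3)) = 0 := by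
  linear_combination (27 * p ^ 3 - 54 * p ^ 2 * q * W + 27 * p ^ 2 * q * c +
    36 * p * q ^ 2 * W ^ 2 - 36 * p * q ^ 2 * W * c + 9 * p * q ^ 2 * c ^ 2 - 36 * p * q ^ 2 * a -
    8 * q ^ 3 * W ^ 3 + 12 * q ^ 3 * W ^ 2 * c - 6 * q ^ 3 * W * c ^ 2 + 24 * q ^ 3 * W * a +
    q ^ 3 * c ^ 3 - 20 * q ^ 3 * c * a) * hW +
    (-27 * p ^ 2 * q * a + 9 * p * q ^ 2 * W * a - 9 * p * q ^ 2 * c * a - 6 * q ^ 3 * W ^ 2 * a +
      3 * q ^ 3 * W * c * a - q ^ 3 * c ^ 2 * a + 16 * q ^ 3 * a ^ 2 + 135 * q ^ 3 * a) * ha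

theorem norm_identity (w s : R) :
    5 * (s * (w ^ 2 - 15) - 6 * w) ^ 2 + 3 * (-(w ^ 2 - 15) - 10 * s * w) ^ 2 =
      ft s * (w ^ 2 + 15) ^ 2 := by
  unfold ft; ring

theorem trace_identity {w s : R}
    (hs : 10 * (w ^ 2 - 5) * s = -((w - 5) * (w ^ 2 + 10 * w + 5))) :
    5 * (2 * ft s + 5) * (s * (w ^ 2 - 15) - 6 * w) ^ 3 -
      9 * (2 * ft s + 5) * (s * (w ^ 2 - 15) - 6 * w) * (-(w ^ 2 - 15) - 10 * s * w) ^ 2 -
      135 * (s * (w ^ 2 - 15) - 6 * w) ^ 2 * (-(w ^ 2 - 15) - 10 * s * w) +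
      27 * (-(w ^ 2 - 15) - 10 * s * w) ^ 3 = 2 * s * fb s * (w ^ 2 + 15) ^ 3 := by
  unfold fb ft
  linear_combination (-135 * w ^ 3 * s ^ 3 + 135 * w ^ 3 * s ^ 2 - 189 * w ^ 3 * s - 27 * w ^ 3 -
    1350 * w ^ 2 * s ^ 4 + 675 * w ^ 2 * s ^ 3 - 1215 * w ^ 2 * s ^ 2 - 1215 * w ^ 2 * s +
    729 * w ^ 2 + 6075 * w * s ^ 3 - 6075 * w * s ^ 2 + 8505 * w * s + 1215 * w + 6750 * s ^ 4 -
    3375 * s ^ 3 + 6075 * s ^ 2 + 6075 * s - 3645) * hs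

end

section

variable {F : Type*} [Field F]

/-- A root of the cubic resolvent gives a root of the 2-division cubic. -/
theorem exists_two_root (e5 : (5 : F) ≠ 0) {w s D C4 C6 y : F} (hw : w ^ 2 + 15 ≠ 0)
    (hs : 10 * (w ^ 2 - 5) * s = -((w - 5) * (w ^ 2 + 10 * w + 5)))
    (h4 : C4 = 5 * fa s * ft s * D ^ 2) (h6 : C6 = 25 * fa s * s * fb s * D ^ 3)
    (hy : (y + 5) * (y ^ 2 - 5) = ft s * (y ^ 2 + 5 * y + 5)) :
    ∃ x : F, x ^ 3 + (-27 * C4) * x + (-54 * C6) = 0 := by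
  obtain ⟨M, hM⟩ : ∃ M, M = w ^ 2 + 15 := ⟨_, rfl⟩
  rw [← hM] at hw
  obtain ⟨p, hp⟩ : ∃ p, p * M = s * (w ^ 2 - 15) - 6 * w :=
    ⟨(s * (w ^ 2 - 15) - 6 * w) / M, div_mul_cancel₀ _ hw⟩
  have h5M : 5 * M ≠ 0 := mul_ne_zero e5 hw
  obtain ⟨q, hq⟩ : ∃ q, q * (5 * M) = -(w ^ 2 - 15) - 10 * s * w :=
    ⟨(-(w ^ 2 - 15) - 10 * s * w) / (5 * M), div_mul_cancel₀ _ h5M⟩
  obtain ⟨c, hc⟩ : ∃ c, c = 2 * ft s + 5 := ⟨_, rfl⟩
  have hi : 5 * (p ^ 2 + 15 * q ^ 2) = ft s := by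
    have h1 := norm_identity w s
    rw [← hp, ← hq, ← hM] at h1
    apply mul_left_cancel₀ (pow_ne_zero 2 hw)
    linear_combination h1
  have hii : 5 * c * (p ^ 3 - 45 * p * q ^ 2) - 225 * (3 * p ^ 2 * q - 15 * q ^ 3) =
      2 * s * fb s := by
    have h1 := trace_identity hs
    rw [← hp, ← hq, ← hM, ← hc] at h1
    apply mul_left_cancel₀ (pow_ne_zero 3 hw)
    linear_combination h1
  have ha : 4 * fa s = c ^ 2 + 135 := by rw [hc]; unfold fa; ring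
  obtain ⟨W, hWd⟩ : ∃ W, W = 3 * y + 5 - ft s := ⟨_, rfl⟩
  have hW : W ^ 3 = 3 * fa s * W + fa s * c := by
    rw [hWd, hc]
    unfold fa
    linear_combination 27 * hy
  have hR := root_identity (p := p) (q := q) ha hW
  refine ⟨5 * D * (3 * p * W + q * (c * W - 2 * W ^ 2 + 4 * fa s)), ?_⟩
  rw [h4, h6]
  linear_combination (125 * D ^ 3) * hR + (675 * fa s * D ^ 3 *
    (3 * p * W + q * (c * W - 2 * W ^ 2 + 4 * fa s))) * hi + (675 * fa s * D ^ 3) * hii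

/-- Over a finite field: if the number of points is divisible by five then it is even. -/
theorem two_dvd_of_five_dvd [Finite F] [DecidableEq F] (e2 : (2 : F) ≠ 0) (e3 : (3 : F) ≠ 0)
    (e5 : (5 : F) ≠ 0) {w s D C4 C6 : F} (hw : w ^ 2 + 15 ≠ 0)
    (hs : 10 * (w ^ 2 - 5) * s = -((w - 5) * (w ^ 2 + 10 * w + 5)))
    (ht : ft s ≠ 0) (ha : fa s ≠ 0) (hb : fb s ≠ 0) (hD : D ≠ 0)
    (h4 : C4 = 5 * fa s * ft s * D ^ 2) (h6 : C6 = 25 * fa s * s * fb s * D ^ 3)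
    (hΔ : (shortW (-27 * C4) (-54 * C6)).Δ ≠ 0)
    (h5 : 5 ∣ Nat.card (shortW (-27 * C4) (-54 * C6)).toAffine.Point) :
    2 ∣ Nat.card (shortW (-27 * C4) (-54 * C6)).toAffine.Point := by
  obtain ⟨H, hH⟩ := five_param e2 e3 h5
  have hj := fj s
  have hdisc : C4 ^ 3 - C6 ^ 2 = 216000 * (fa s ^ 2 * D ^ 6) := by
    rw [h4, h6]
    linear_combination (125 * fa s ^ 2 * D ^ 6) * hj
  have hne : (216000 : F) * (fa s ^ 2 * D ^ 6) ≠ 0 := by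
    have : (216000 : F) = 2 ^ 6 * 3 ^ 3 * 5 ^ 3 := by norm_num
    rw [this]
    exact mul_ne_zero (mul_ne_zero (mul_ne_zero (pow_ne_zero _ e2) (pow_ne_zero _ e3))
      (pow_ne_zero _ e5)) (mul_ne_zero (pow_ne_zero _ ha) (pow_ne_zero _ hD))
  have hrel : H * (ft s ^ 5 + 5 * ft s ^ 4 + 40 * ft s ^ 3) = (H ^ 2 + 10 * H + 5) ^ 3 := by
    have h7 : fa s * ft s ^ 3 = ft s ^ 5 + 5 * ft s ^ 4 + 40 * ft s ^ 3 := by unfold fa; ring
    rw [← h7]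
    apply mul_left_cancel₀ hne
    rw [hdisc, h4] at hH
    linear_combination -hH
  have hH0 : H ≠ 0 := by
    rintro rfl
    apply pow_ne_zero 3 e5
    linear_combination -hrel
  have hb' : ft s ^ 2 + 4 * ft s + 24 ≠ 0 := hb
  obtain ⟨y, hy⟩ := exists_y e5 hH0 ht hb' hrel
  obtain ⟨x, hx⟩ := exists_two_root e5 hw hs h4 h6 hy
  exact two_dvd_card_of_root hΔ hx

end

end Pool.Agent.Helper95.KU
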